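import Pool.Agent.Helper9.HL.Core

/-!
# Block AFE of Hall gaps
-/

set_option autoImplicit false

namespace Pool.Agent.HL9

open Complex Set MeasureTheory Filter Topology
open scoped FourierTransform SchwartzMap ComplexConjugate
open Pool.Agent.Helper44.HL (chi)
open Pool.Agent.Helper33.HG (kapf kc Fd kF_Fd cut_exists isCut_Fd)
open Pool.Agent.Helper69.HG (DP ze kF IsCut BF AFE)

noncomputable section

lemma ze_eq (t : ℝ) : ze t = riemannZeta (hl t) := rfl

lemma BF_eq (F : ℝ → ℂ) (T ξ t : ℝ) : BF F T ξ t =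
    ∑ n ∈ Finset.Icc 1 ⌊T⌋₊, kF F (Real.log n / Real.log T) *
      (n : ℂ) ^ (I * (ξ / Real.log T)) * (n : ℂ) ^ (-hl t) := rfl

lemma BF_zero (F : ℝ → ℂ) (T t : ℝ) : BF F T 0 t =
    ∑ n ∈ Finset.Icc 1 ⌊T⌋₊, kF F (Real.log n / Real.log T) * (n : ℂ) ^ (-hl t) := by
  rw [BF_eq]
  apply Finset.sum_congr rfl
  intro n _
  rw [ofReal_zero, zero_div, mul_zero, Complex.cpow_zero, mul_one]

lemma cpow_xi {n : ℕ} (hn : 1 ≤ n) (x : ℝ) :
    (n : ℂ) ^ (I * (x : ℂ)) = cexp (I * (x * Real.log n)) := by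
  have hn0 : (n : ℂ) ≠ 0 := by
    have : n ≠ 0 := by omega
    exact_mod_cast this
  rw [Complex.cpow_def_of_ne_zero hn0, ← Complex.natCast_log]
  congr 1
  ring

lemma norm_cpow_xi {n : ℕ} (hn : 1 ≤ n) (x : ℝ) : ‖(n : ℂ) ^ (I * (x : ℂ))‖ = 1 := by
  rw [cpow_xi hn]
  have : I * ((x : ℂ) * (Real.log n : ℝ)) = ((x * Real.log n : ℝ) : ℂ) * I := by push_cast; ring
  rw [this, Complex.norm_exp_ofReal_mul_I]

lemma continuous_BF (F : ℝ → ℂ) (T t : ℝ) : Continuous fun ξ : ℝ => BF F T ξ t := by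
  simp only [BF_eq]
  apply continuous_finset_sum
  intro n hn
  have hn0 : (n : ℂ) ≠ 0 := by
    have : n ≠ 0 := by have := (Finset.mem_Icc.mp hn).1; omega
    exact_mod_cast this
  apply Continuous.mul _ continuous_const
  apply Continuous.mul continuous_const
  apply Continuous.const_cpow _ (Or.inl hn0)
  exact continuous_const.mul (Complex.continuous_ofReal.div_const _)

lemma norm_BF_le {lo hi : ℝ} {F : ℝ → ℂ} (hF : IsCut lo hi F) (T ξ t : ℝ) :
    ‖BF F T ξ t‖ ≤ ⌊T⌋₊ := by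
  rw [BF_eq]
  refine (norm_sum_le _ _).trans ?_
  have h : ∀ n ∈ Finset.Icc 1 ⌊T⌋₊, ‖kF F (Real.log n / Real.log T) *
      (n : ℂ) ^ (I * (ξ / Real.log T)) * (n : ℂ) ^ (-hl t)‖ ≤ 1 := by
    intro n hn
    have hn1 := (Finset.mem_Icc.mp hn).1
    rw [norm_mul, norm_mul, norm_cpow_hl hn1, ← ofReal_div, norm_cpow_xi hn1, mul_one]
    apply mul_le_one₀ (hF.bd _) (by positivity)
    apply Real.rpow_le_one_of_one_le_of_nonpos
    · exact_mod_cast hn1
    · norm_num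
  refine (Finset.sum_le_sum h).trans (le_of_eq ?_)
  simp

lemma integrable_F {lo hi : ℝ} {F : ℝ → ℂ} (hF : IsCut lo hi F) (k : ℕ) :
    Integrable fun ξ : ℝ => |ξ| ^ k * ‖F ξ‖ := by
  refine (hF.dec k).mono' ((continuous_abs.pow k).mul hF.cont.norm).aestronglyMeasurable
    (Eventually.of_forall fun ξ => ?_)
  rw [Real.norm_of_nonneg (by positivity)]
  exact mul_le_mul_of_nonneg_right (pow_le_pow_left₀ (abs_nonneg _) (by linarith) k)
    (norm_nonneg _)

lemma integrable_F0 {lo hi : ℝ} {F : ℝ → ℂ} (hF : IsCut lo hi F) : Integrable F := by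
  have h := integrable_F hF 0
  simp only [pow_zero, one_mul] at h
  exact (integrable_norm_iff hF.cont.aestronglyMeasurable).mp h

lemma integrable_F_mul {lo hi : ℝ} {F : ℝ → ℂ} (hF : IsCut lo hi F) {g : ℝ → ℂ}
    (hg : Continuous g) {C : ℝ} (hC : ∀ ξ, ‖g ξ‖ ≤ C) : Integrable fun ξ : ℝ => F ξ * g ξ :=
  (integrable_F0 hF).mul_bdd (c := C) hg.aestronglyMeasurable (Eventually.of_forall hC)

lemma norm_exp_I_mul (x y : ℝ) : ‖cexp (I * ((x : ℂ) * y))‖ = 1 := by
  have : I * ((x : ℂ) * y) = ((x * y : ℝ) : ℂ) * I := by push_cast; ring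
  rw [this, Complex.norm_exp_ofReal_mul_I]

lemma kF_sub {lo hi : ℝ} {F : ℝ → ℂ} (hF : IsCut lo hi F) (v w : ℝ) :
    kF F (v - w) - kF F v =
      ∫ ξ : ℝ, F ξ * ((cexp (-(I * (ξ * w))) - 1) * cexp (I * (ξ * v))) := by
  unfold kF
  have h1 : ∀ v : ℝ, Integrable fun ξ : ℝ => F ξ * cexp (I * (ξ * v)) := by
    intro v
    refine integrable_F_mul hF (g := fun ξ : ℝ => cexp (I * (ξ * v))) (by fun_prop) (C := 1)
      fun ξ => ?_
    rw [norm_exp_I_mul]
  have h2 := h1 (v - w)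
  rw [← integral_sub h2 (h1 v)]
  apply integral_congr_ae
  filter_upwards with ξ
  have e : cexp (I * (ξ * ((v - w : ℝ) : ℂ))) = cexp (-(I * (ξ * w))) * cexp (I * (ξ * v)) := by
    rw [← Complex.exp_add]
    congr 1
    push_cast
    ring
  rw [e]
  ring

/-- the difference of the two sums -/
lemma diff_eq {d : ℝ} (hd2 : d ≤ 1 / 40) {F F₂ : ℝ → ℂ} {hi : ℝ}
    (hF : IsCut (1 / 2 - d) (1 / 2 + d) F) (hF₂ : IsCut (14 / 25) hi F₂) {T : ℝ} (hT : 1 < T)
    {w : ℝ} (hw : w ≤ 0) (t : ℝ) :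
    ∑ n ∈ Finset.Icc 1 ⌊T⌋₊, kF F (Real.log n / Real.log T - w) * (n : ℂ) ^ (-hl t) -
      ∑ n ∈ Finset.Icc 1 ⌊T⌋₊, kF F (Real.log n / Real.log T) * (n : ℂ) ^ (-hl t) =
      ∫ ξ : ℝ, F ξ * ((cexp (-(I * (ξ * w))) - 1) * BF F₂ T ξ t) := by
  have hL : 0 < Real.log T := Real.log_pos hT
  rw [← Finset.sum_sub_distrib]
  have h1 : ∀ n ∈ Finset.Icc 1 ⌊T⌋₊,
      kF F (Real.log n / Real.log T - w) * (n : ℂ) ^ (-hl t) -
        kF F (Real.log n / Real.log T) * (n : ℂ) ^ (-hl t) =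
      ∫ ξ : ℝ, F ξ * ((cexp (-(I * (ξ * w))) - 1) *
        (kF F₂ (Real.log n / Real.log T) * (n : ℂ) ^ (I * (ξ / Real.log T)) *
          (n : ℂ) ^ (-hl t))) := by
    intro n hn
    have hn1 := (Finset.mem_Icc.mp hn).1
    have hv : 0 ≤ Real.log n / Real.log T :=
      div_nonneg (Real.log_nonneg (by exact_mod_cast hn1)) hL.le
    set v := Real.log n / Real.log T with hvdef
    have h2 : kF F (v - w) - kF F v = (kF F (v - w) - kF F v) * kF F₂ v := by
      rcases le_or_gt v (14 / 25) with h | h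
      · rw [hF₂.one v (by linarith) h, mul_one]
      · rw [hF.zero (v - w) (by linarith), hF.zero v (by linarith), sub_self, zero_mul]
    rw [← sub_mul, h2, kF_sub hF, mul_assoc, ← integral_mul_const]
    apply integral_congr_ae
    filter_upwards with ξ
    have e : (n : ℂ) ^ (I * (ξ / Real.log T)) = cexp (I * (ξ * v)) := by
      rw [← ofReal_div, cpow_xi hn1]
      congr 1
      rw [hvdef]
      push_cast
      ring
    rw [e]
    ring
  rw [Finset.sum_congr rfl h1, ← integral_finset_sum]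
  · apply integral_congr_ae
    filter_upwards with ξ
    rw [BF_eq, Finset.mul_sum, Finset.mul_sum]
  · intro n hn
    have hn1 := (Finset.mem_Icc.mp hn).1
    have hn0 : (n : ℂ) ≠ 0 := by
      have : n ≠ 0 := by omega
      exact_mod_cast this
    refine integrable_F_mul hF (C := 2 * ‖kF F₂ (Real.log n / Real.log T)‖) ?_ fun ξ => ?_
    · apply Continuous.mul (by fun_prop)
      apply Continuous.mul _ continuous_const
      apply Continuous.mul continuous_const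
      apply Continuous.const_cpow _ (Or.inl hn0)
      exact continuous_const.mul (Complex.continuous_ofReal.div_const _)
    · rw [norm_mul, norm_mul, norm_mul, norm_cpow_hl hn1, ← ofReal_div, norm_cpow_xi hn1, mul_one]
      have h3 : ‖cexp (-(I * (ξ * w))) - 1‖ ≤ 2 := by
        refine (norm_sub_le _ _).trans ?_
        have : -(I * ((ξ : ℂ) * w)) = I * ((ξ : ℂ) * ((-w : ℝ) : ℂ)) := by push_cast; ring
        rw [this, norm_exp_I_mul, norm_one]
        norm_num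
      have h4 : (n : ℝ) ^ (-(1 / 2) : ℝ) ≤ 1 := by
        apply Real.rpow_le_one_of_one_le_of_nonpos
        · exact_mod_cast hn1
        · norm_num
      have h5 : (0 : ℝ) ≤ (n : ℝ) ^ (-(1 / 2) : ℝ) := by positivity
      have h6 := norm_nonneg (kF F₂ (Real.log n / Real.log T))
      calc ‖cexp (-(I * (ξ * w))) - 1‖ * (‖kF F₂ (Real.log n / Real.log T)‖ *
            (n : ℝ) ^ (-(1 / 2) : ℝ)) ≤ 2 * (‖kF F₂ (Real.log n / Real.log T)‖ * 1) := by
            gcongr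
        _ = _ := by ring

/-- **Block AFE**, with any second cut. -/
theorem afe_of_cut {d : ℝ} (hd : 0 < d) (hd2 : d ≤ 1 / 40) {F₂ : ℝ → ℂ} {hi : ℝ}
    (hF₂ : IsCut (14 / 25) hi F₂) : ∃ C T₀ : ℝ, 0 < C ∧ ∀ T : ℝ, T₀ ≤ T →
    ∀ t ∈ Set.Icc T (2 * T), ‖ze t‖ ≤ 2 * ‖BF (Fd d) T 0 t‖ +
      C / Real.log T * (∫ ξ : ℝ, |ξ| * ‖Fd d ξ‖ * ‖BF F₂ T ξ t‖) + C * T ^ (-(1 / 4) : ℝ) := by
  obtain ⟨C, hC, hcore⟩ := afe_core hd hd2
  have hF := isCut_Fd hd
  refine ⟨C + 2, 10, by linarith, ?_⟩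
  intro T hT t ht
  have hT0 : 0 < T := by linarith
  obtain ⟨ht1, ht2⟩ := ht
  have ht0 : 0 < t := by linarith
  have hL0 : 0 < Real.log T := Real.log_pos (by linarith)
  set w : ℝ := (Real.log (t / (2 * Real.pi)) - Real.log T) / Real.log T with hw
  have hw1 : Real.log T * w = Real.log (t / (2 * Real.pi)) - Real.log T := by
    rw [hw]; field_simp
  have hpi : 3 < Real.pi := Real.pi_gt_three
  have hpi2 : Real.pi < 3.15 := Real.pi_lt_d2
  have e0 : Real.log (t / (2 * Real.pi)) - Real.log T = Real.log (t / (2 * Real.pi * T)) := by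
    rw [← Real.log_div (by positivity) hT0.ne', div_div]
  have hw0 : w ≤ 0 := by
    rw [hw, e0]
    apply div_nonpos_of_nonpos_of_nonneg _ hL0.le
    apply Real.log_nonpos (by positivity)
    rw [div_le_one (by positivity)]
    nlinarith
  have hw2 : -(2 / Real.log T) ≤ w := by
    rw [hw, e0, ← neg_div]
    apply div_le_div_of_nonneg_right _ hL0.le
    rw [Real.le_log_iff_exp_le (by positivity), le_div_iff₀ (by positivity)]
    have h1 : Real.exp (-2) * Real.exp 2 = 1 := by rw [← Real.exp_add]; norm_num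
    have h2 : (6.3 : ℝ) < Real.exp 2 := by
      have h3 : 2.7182818283 < Real.exp 1 := Real.exp_one_gt_d9
      have h4 : Real.exp 2 = Real.exp 1 * Real.exp 1 := by rw [← Real.exp_add]; norm_num
      rw [h4]
      nlinarith
    have h5 : 0 < Real.exp (-2) := Real.exp_pos _
    have h6 : Real.exp (-2) * (2 * Real.pi) ≤ 1 := by nlinarith
    calc Real.exp (-2) * (2 * Real.pi * T) = (Real.exp (-2) * (2 * Real.pi)) * T := by ring
      _ ≤ 1 * T := mul_le_mul_of_nonneg_right h6 hT0.le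
      _ ≤ t := by linarith
  have h := hcore T hT t ⟨ht1, ht2⟩ w hw1
  have ekc : ∀ v : ℝ, kc d v = kF (Fd d) v := fun v => (kF_Fd hd v).symm
  simp only [ekc] at h
  rw [← BF_zero, ← ze_eq] at h
  have hdiff := diff_eq hd2 hF hF₂ (by linarith : 1 < T) hw0 t
  rw [← BF_zero] at hdiff
  set Bw := ∑ n ∈ Finset.Icc 1 ⌊T⌋₊, kF (Fd d) (Real.log n / Real.log T - w) * (n : ℂ) ^ (-hl t)
  set J := ∫ ξ : ℝ, |ξ| * ‖Fd d ξ‖ * ‖BF F₂ T ξ t‖ with hJ
  have hint : Integrable fun ξ : ℝ => |ξ| * ‖Fd d ξ‖ * ‖BF F₂ T ξ t‖ := by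
    have h1 := integrable_F hF 1
    simp only [pow_one] at h1
    exact h1.mul_bdd (c := (⌊T⌋₊ : ℝ)) (continuous_BF F₂ T t).norm.aestronglyMeasurable
      (Eventually.of_forall fun ξ => by
        rw [norm_norm]
        exact norm_BF_le hF₂ T ξ t)
  have hd3 : ‖Bw - BF (Fd d) T 0 t‖ ≤ 2 / Real.log T * J := by
    rw [hdiff, hJ, ← integral_const_mul]
    refine norm_integral_le_of_norm_le (hint.const_mul _) (Eventually.of_forall fun ξ => ?_)
    rw [norm_mul, norm_mul]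
    have h1 : ‖cexp (-(I * (ξ * w))) - 1‖ ≤ |ξ| * (2 / Real.log T) := by
      have h2 := Real.norm_exp_I_mul_ofReal_sub_one_le (x := -(ξ * w))
      have e : I * ((-(ξ * w) : ℝ) : ℂ) = -(I * (ξ * w)) := by push_cast; ring
      rw [e] at h2
      refine h2.trans ?_
      rw [Real.norm_eq_abs, abs_neg, abs_mul]
      apply mul_le_mul_of_nonneg_left _ (abs_nonneg _)
      rw [abs_of_nonpos hw0]
      linarith
    calc ‖Fd d ξ‖ * (‖cexp (-(I * (ξ * w))) - 1‖ * ‖BF F₂ T ξ t‖) ≤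
          ‖Fd d ξ‖ * ((|ξ| * (2 / Real.log T)) * ‖BF F₂ T ξ t‖) := by gcongr
      _ = _ := by ring
  have hJ0 : 0 ≤ J := integral_nonneg fun ξ => by positivity
  have hX : T ^ (-(1 / 2) : ℝ) ≤ T ^ (-(1 / 4) : ℝ) :=
    Real.rpow_le_rpow_of_exponent_le (by linarith) (by norm_num)
  have hX0 : 0 < T ^ (-(1 / 4) : ℝ) := Real.rpow_pos_of_pos hT0 _
  have n1 : ‖chi t * conj Bw‖ = ‖Bw‖ := by
    rw [norm_mul, Pool.Agent.Helper44.HL.norm_chi, one_mul, RCLike.norm_conj]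
  have n2 : ‖Bw‖ ≤ ‖BF (Fd d) T 0 t‖ + 2 / Real.log T * J := by
    have : Bw = BF (Fd d) T 0 t + (Bw - BF (Fd d) T 0 t) := by ring
    rw [this]
    exact (norm_add_le _ _).trans (add_le_add le_rfl hd3)
  have n3 : ‖ze t‖ ≤ ‖ze t - BF (Fd d) T 0 t - chi t * conj Bw‖ + ‖BF (Fd d) T 0 t‖ +
      ‖chi t * conj Bw‖ := by
    have : ze t = (ze t - BF (Fd d) T 0 t - chi t * conj Bw) + BF (Fd d) T 0 t +
      chi t * conj Bw := by ring
    conv_lhs => rw [this]
    exact (norm_add_le _ _).trans (add_le_add (norm_add_le _ _) le_rfl)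
  rw [n1] at n3
  have n4 : C * T ^ (-(1 / 2) : ℝ) ≤ (C + 2) * T ^ (-(1 / 4) : ℝ) := by nlinarith
  have n5 : 2 / Real.log T * J ≤ (C + 2) / Real.log T * J := by
    apply mul_le_mul_of_nonneg_right _ hJ0
    exact div_le_div_of_nonneg_right (by linarith) hL0.le
  linarith

/-- **Block AFE.** -/
theorem afe : AFE := by
  intro c hc
  obtain ⟨d, hd, hd2, hd3, h1, h2, h3⟩ := cut_exists c hc
  exact ⟨d, hd, hd2, hd3, Fd d, Pool.Agent.Helper33.HG.F2, h1, h2, h3, afe_of_cut hd hd2 h2⟩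

end

end Pool.Agent.HL9
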