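import Mathlib

/-!
# Uniform integrability from fourth and sixth moments
-/

set_option autoImplicit false

namespace Pool.Agent.HL9

open MeasureTheory ENNReal

noncomputable section

/-- **Uniform integrability of a monomial.** The exponent `1 / (4 k + 2)` of the measure of `G` is
positive. -/
theorem ui_mono {α : Type*} [MeasurableSpace α] {μ : Measure α} {k : ℕ} {g : α → ℂ}
    {P : Fin k → α → ℂ} (hg : AEMeasurable g μ) (hP : ∀ i, AEMeasurable (P i) μ) {A : ℝ≥0∞}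
    (h4 : ∫⁻ t, ‖g t‖ₑ ^ 4 ∂μ ≤ A)
    (h6 : ∀ i, ∫⁻ t, (∏ j, ‖P j t‖ₑ) ^ 4 * ‖P i t‖ₑ ^ 2 ∂μ ≤ A) (G : Set α) :
    ∫⁻ t in G, ‖g t * ∏ j, P j t‖ₑ ^ 2 ∂μ ≤
      A ^ (1 - 1 / (4 * (k : ℝ) + 2)) * μ G ^ (1 / (4 * (k : ℝ) + 2)) := by
  classical
  have hk : (0 : ℝ) < 2 * k + 1 := by positivity
  set ν := μ.restrict G with hν
  let f : Option (Option (Fin k)) → α → ℝ≥0∞ := fun i t => match i with
    | none => 1
    | some none => ‖g t‖ₑ ^ 4
    | some (some i) => (∏ j, ‖P j t‖ₑ) ^ 4 * ‖P i t‖ₑ ^ 2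
  let p : Option (Option (Fin k)) → ℝ := fun i => match i with
    | none => 1 / (4 * (k : ℝ) + 2)
    | some none => 1 / 2
    | some (some _) => 1 / (2 * (k : ℝ) + 1)
  have hf : ∀ i ∈ Finset.univ, AEMeasurable (f i) ν := by
    intro i _
    have hg' : AEMeasurable (fun t => ‖g t‖ₑ) ν := hg.enorm.restrict
    have hP' : ∀ i, AEMeasurable (fun t => ‖P i t‖ₑ) ν := fun i => (hP i).enorm.restrict
    match i with
    | none => exact aemeasurable_const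
    | some none => exact hg'.pow_const _
    | some (some i) =>
      exact ((Finset.aemeasurable_fun_prod _ fun j _ => hP' j).pow_const _).mul ((hP' i).pow_const _)
  have hp1 : ∑ i ∈ Finset.univ, p i = 1 := by
    rw [Fintype.sum_option, Fintype.sum_option]
    change 1 / (4 * (k : ℝ) + 2) + (1 / 2 + ∑ _i : Fin k, 1 / (2 * (k : ℝ) + 1)) = 1
    rw [Finset.sum_const, Finset.card_univ, Fintype.card_fin, nsmul_eq_mul]
    field_simp
    ring
  have hp0 : ∀ i ∈ Finset.univ, 0 ≤ p i := by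
    intro i _
    match i with
    | none => change 0 ≤ 1 / (4 * (k : ℝ) + 2); positivity
    | some none => change (0 : ℝ) ≤ 1 / 2; norm_num
    | some (some _) => change 0 ≤ 1 / (2 * (k : ℝ) + 1); positivity
  have h := lintegral_prod_norm_pow_le (μ := ν) Finset.univ hf hp1 hp0
  have hprod : ∀ t, ∏ i, f i t ^ p i = ‖g t * ∏ j, P j t‖ₑ ^ 2 := by
    intro t
    rw [Fintype.prod_option, Fintype.prod_option]
    change (1 : ℝ≥0∞) ^ (1 / (4 * (k : ℝ) + 2)) * ((‖g t‖ₑ ^ 4) ^ (1 / 2 : ℝ) *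
      ∏ i : Fin k, ((∏ j, ‖P j t‖ₑ) ^ 4 * ‖P i t‖ₑ ^ 2) ^ (1 / (2 * (k : ℝ) + 1))) = _
    have e1 : (‖g t‖ₑ ^ 4) ^ (1 / 2 : ℝ) = ‖g t‖ₑ ^ 2 := by
      rw [← ENNReal.rpow_natCast, ← ENNReal.rpow_mul, ← ENNReal.rpow_natCast]
      congr 1
      norm_num
    set R : ℝ≥0∞ := ∏ j, ‖P j t‖ₑ with hR
    have e2 : ∏ i : Fin k, (R ^ 4 * ‖P i t‖ₑ ^ 2) ^ (1 / (2 * (k : ℝ) + 1)) = R ^ 2 := by
      rw [ENNReal.prod_rpow_of_nonneg (by positivity), Finset.prod_mul_distrib, Finset.prod_const,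
        Finset.card_univ, Fintype.card_fin, Finset.prod_pow, ← hR, ← pow_mul, ← pow_add,
        ← ENNReal.rpow_natCast, ← ENNReal.rpow_mul, ← ENNReal.rpow_natCast]
      congr 1
      push_cast
      field_simp
      ring
    rw [ENNReal.one_rpow, one_mul, e1, e2, enorm_mul, mul_pow, hR]
    congr 2
    rw [← ofReal_norm_eq_enorm, norm_prod, ENNReal.ofReal_prod_of_nonneg (fun _ _ => norm_nonneg _)]
    simp only [ofReal_norm_eq_enorm]
  simp only [hprod] at h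
  refine h.trans ?_
  rw [Fintype.prod_option, Fintype.prod_option]
  change (∫⁻ _, 1 ∂ν) ^ (1 / (4 * (k : ℝ) + 2)) * ((∫⁻ t, ‖g t‖ₑ ^ 4 ∂ν) ^ (1 / 2 : ℝ) *
    ∏ i : Fin k, (∫⁻ t, (∏ j, ‖P j t‖ₑ) ^ 4 * ‖P i t‖ₑ ^ 2 ∂ν) ^ (1 / (2 * (k : ℝ) + 1))) ≤ _
  rw [lintegral_one, hν, Measure.restrict_apply_univ, mul_comm]
  refine mul_le_mul' ?_ le_rfl
  have b4 : (∫⁻ t in G, ‖g t‖ₑ ^ 4 ∂μ) ^ (1 / 2 : ℝ) ≤ A ^ (1 / 2 : ℝ) :=
    ENNReal.rpow_le_rpow ((setLIntegral_le_lintegral _ _).trans h4) (by norm_num)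
  have b6 : ∏ i : Fin k, (∫⁻ t in G, (∏ j, ‖P j t‖ₑ) ^ 4 * ‖P i t‖ₑ ^ 2 ∂μ) ^
      (1 / (2 * (k : ℝ) + 1)) ≤ ∏ _i : Fin k, A ^ (1 / (2 * (k : ℝ) + 1)) :=
    Finset.prod_le_prod' fun i _ =>
      ENNReal.rpow_le_rpow ((setLIntegral_le_lintegral _ _).trans (h6 i)) (by positivity)
  refine (mul_le_mul' b4 b6).trans (le_of_eq ?_)
  rw [Finset.prod_const, Finset.card_univ, Fintype.card_fin, ← ENNReal.rpow_natCast,
    ← ENNReal.rpow_mul, ← ENNReal.rpow_add_of_nonneg _ _ (by norm_num) (by positivity)]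
  congr 1
  field_simp
  ring

/-- **Uniform integrability.** -/
theorem ui_sum {ι : Type*} (s : Finset ι) (c : ι → ℂ) (k : ι → ℕ) {C ε : ℝ} (hC : 0 ≤ C)
    (hε : 0 < ε) :
    ∃ δ : ℝ, 0 < δ ∧ ∀ (T : ℝ) (_ : 0 < T) (I G : Set ℝ) (g : ℝ → ℂ)
      (P : ∀ m, Fin (k m) → ℝ → ℂ), AEMeasurable g (volume.restrict I) →
      (∀ m ∈ s, ∀ i, AEMeasurable (P m i) (volume.restrict I)) →
      ∫⁻ t in I, ‖g t‖ₑ ^ 4 ≤ ENNReal.ofReal (C * T) →
      (∀ m ∈ s, ∀ i, ∫⁻ t in I, (∏ j, ‖P m j t‖ₑ) ^ 4 * ‖P m i t‖ₑ ^ 2 ≤ ENNReal.ofReal (C * T)) →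
      G ⊆ I → volume G ≤ ENNReal.ofReal (δ * T) →
      ∫⁻ t in G, ‖g t * ∑ m ∈ s, c m * ∏ j, P m j t‖ₑ ^ 2 ≤ ENNReal.ofReal (ε * T) := by
  classical
  -- the bound for one monomial
  let b : ι → ℝ → ℝ := fun m δ =>
    ‖c m‖ ^ 2 * (C ^ (1 - 1 / (4 * (k m : ℝ) + 2)) * δ ^ (1 / (4 * (k m : ℝ) + 2)))
  have hlim : Filter.Tendsto (fun δ : ℝ => (s.card : ℝ) * ∑ m ∈ s, b m δ) (nhdsWithin 0 (Set.Ioi 0))
      (nhds ((s.card : ℝ) * ∑ m ∈ s, ‖c m‖ ^ 2 * (C ^ (1 - 1 / (4 * (k m : ℝ) + 2)) * 0))) := by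
    apply Filter.Tendsto.const_mul
    apply tendsto_finset_sum
    intro m _
    apply Filter.Tendsto.const_mul
    apply Filter.Tendsto.const_mul
    have h1 : (0 : ℝ) < 1 / (4 * (k m : ℝ) + 2) := by positivity
    have h2 := (Real.continuousAt_rpow_const 0 _ (Or.inr h1.le)).tendsto
    rw [Real.zero_rpow h1.ne'] at h2
    exact h2.mono_left nhdsWithin_le_nhds
  simp only [mul_zero, Finset.sum_const_zero] at hlim
  have hev := (hlim.eventually_lt_const hε).and self_mem_nhdsWithin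
  obtain ⟨δ, hδ, hδ0⟩ := hev.exists
  refine ⟨δ, hδ0, ?_⟩
  intro T hT I G g P hg hP h4 h6 hGI hG
  set μ := volume.restrict I with hμ
  have hμG : volume.restrict G = μ.restrict G := by
    rw [hμ, Measure.restrict_restrict_of_subset hGI]
  have hμG' : μ G ≤ ENNReal.ofReal (δ * T) := (Measure.restrict_apply_le I G).trans hG
  have hone : ∀ m ∈ s, ∫⁻ t in G, ‖c m * (g t * ∏ j, P m j t)‖ₑ ^ 2 ≤
      ENNReal.ofReal (b m δ * T) := by
    intro m hm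
    have h1 := ui_mono (μ := μ) hg (hP m hm) h4 (h6 m hm) G
    rw [← hμG] at h1
    have hx : (0 : ℝ) < 4 * (k m : ℝ) + 2 := by positivity
    have hx1 : (0 : ℝ) < 1 / (4 * (k m : ℝ) + 2) := by positivity
    have hx2 : (0 : ℝ) < 1 - 1 / (4 * (k m : ℝ) + 2) := by
      rw [sub_pos, div_lt_one hx]
      have : (0 : ℝ) ≤ k m := Nat.cast_nonneg _
      linarith
    have h2 : ENNReal.ofReal (C * T) ^ (1 - 1 / (4 * (k m : ℝ) + 2)) *
        μ G ^ (1 / (4 * (k m : ℝ) + 2)) ≤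
        ENNReal.ofReal (C ^ (1 - 1 / (4 * (k m : ℝ) + 2)) * δ ^ (1 / (4 * (k m : ℝ) + 2)) * T) := by
      refine (mul_le_mul' le_rfl (ENNReal.rpow_le_rpow hμG' hx1.le)).trans (le_of_eq ?_)
      rw [ENNReal.ofReal_rpow_of_nonneg (by positivity) hx2.le,
        ENNReal.ofReal_rpow_of_nonneg (by positivity) hx1.le, ← ENNReal.ofReal_mul (by positivity)]
      congr 1
      rw [Real.mul_rpow hC hT.le, Real.mul_rpow hδ0.le hT.le]
      have h3 : T ^ (1 - 1 / (4 * (k m : ℝ) + 2)) * T ^ (1 / (4 * (k m : ℝ) + 2)) = T := by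
        rw [← Real.rpow_add hT, sub_add_cancel, Real.rpow_one]
      calc _ = C ^ (1 - 1 / (4 * (k m : ℝ) + 2)) * δ ^ (1 / (4 * (k m : ℝ) + 2)) *
          (T ^ (1 - 1 / (4 * (k m : ℝ) + 2)) * T ^ (1 / (4 * (k m : ℝ) + 2))) := by ring
        _ = _ := by rw [h3]
    have h3 : ∀ t, ‖c m * (g t * ∏ j, P m j t)‖ₑ ^ 2 =
        ENNReal.ofReal (‖c m‖ ^ 2) * ‖g t * ∏ j, P m j t‖ₑ ^ 2 := by
      intro t
      rw [enorm_mul, mul_pow, ENNReal.ofReal_pow (norm_nonneg _), ofReal_norm_eq_enorm]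
    simp only [h3]
    rw [lintegral_const_mul' _ _ ENNReal.ofReal_ne_top]
    refine (mul_le_mul' le_rfl (h1.trans h2)).trans (le_of_eq ?_)
    rw [← ENNReal.ofReal_mul (by positivity)]
    congr 1
    ring
  have hbm : ∀ m, 0 ≤ b m δ * T := fun m => by positivity
  calc ∫⁻ t in G, ‖g t * ∑ m ∈ s, c m * ∏ j, P m j t‖ₑ ^ 2
      ≤ ∫⁻ t in G, (s.card : ℝ≥0∞) * ∑ m ∈ s, ‖c m * (g t * ∏ j, P m j t)‖ₑ ^ 2 := by
        apply lintegral_mono
        intro t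
        have e : g t * ∑ m ∈ s, c m * ∏ j, P m j t = ∑ m ∈ s, c m * (g t * ∏ j, P m j t) := by
          rw [Finset.mul_sum]
          exact Finset.sum_congr rfl fun m _ => by ring
        have h1 : ‖g t * ∑ m ∈ s, c m * ∏ j, P m j t‖ₑ ≤ ∑ m ∈ s, ‖c m * (g t * ∏ j, P m j t)‖ₑ := by
          rw [e]
          exact enorm_sum_le _ _
        have h2 := ENNReal.rpow_sum_le_const_mul_sum_rpow (s := s)
          (f := fun m => ‖c m * (g t * ∏ j, P m j t)‖ₑ) (p := 2) (by norm_num)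
        have h3 : (2 : ℝ) - 1 = 1 := by norm_num
        rw [h3, ENNReal.rpow_one] at h2
        simp only [ENNReal.rpow_ofNat] at h2
        exact (pow_le_pow_left' h1 2).trans h2
    _ = (s.card : ℝ≥0∞) * ∑ m ∈ s, ∫⁻ t in G, ‖c m * (g t * ∏ j, P m j t)‖ₑ ^ 2 := by
        rw [lintegral_const_mul' _ _ (ENNReal.natCast_ne_top _), lintegral_finset_sum']
        intro m hm
        have h1 : AEMeasurable (fun t => c m * (g t * ∏ j, P m j t)) (volume.restrict G) := by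
          rw [hμG]
          refine AEMeasurable.const_mul ?_ _
          refine (hg.restrict).mul ?_
          exact Finset.aemeasurable_fun_prod _ fun j _ => (hP m hm j).restrict
        exact h1.enorm.pow_const _
    _ ≤ (s.card : ℝ≥0∞) * ∑ m ∈ s, ENNReal.ofReal (b m δ * T) :=
        mul_le_mul' le_rfl (Finset.sum_le_sum hone)
    _ = ENNReal.ofReal ((s.card : ℝ) * ∑ m ∈ s, b m δ * T) := by
        rw [← ENNReal.ofReal_sum_of_nonneg fun m _ => hbm m,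
          ENNReal.ofReal_mul (Nat.cast_nonneg _), ENNReal.ofReal_natCast]
    _ ≤ ENNReal.ofReal (ε * T) := by
        apply ENNReal.ofReal_le_ofReal
        rw [← Finset.sum_mul, ← mul_assoc]
        exact mul_le_mul_of_nonneg_right hδ.le hT.le

end

end Pool.Agent.HL9
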