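import Mathlib

/-!
# Kernels with a given multiplier
-/

set_option autoImplicit false

namespace Pool.Agent.HL9

open Complex Set MeasureTheory Filter Topology
open scoped FourierTransform SchwartzMap

noncomputable section

/-- the kernel with the multiplier `q` -/
def Kq (q : 𝓢(ℝ, ℂ)) (u : ℝ) : ℂ := ((1 / (2 * Real.pi) : ℝ) : ℂ) * (𝓕 q) (u / (2 * Real.pi))

lemma two_pi_ne : (2 * Real.pi) ≠ 0 := by positivity

lemma Kq_eq (q : 𝓢(ℝ, ℂ)) (u : ℝ) :
    Kq q u = ((1 / (2 * Real.pi) : ℝ) : ℂ) * ∫ y : ℝ, cexp (-(I * u * y)) * q y := by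
  unfold Kq
  congr 1
  rw [SchwartzMap.fourier_coe, Real.fourier_eq']
  apply integral_congr_ae
  filter_upwards with y
  rw [smul_eq_mul]
  congr 2
  simp only [RCLike.inner_apply, conj_trivial]
  push_cast
  field_simp

lemma continuous_Kq (q : 𝓢(ℝ, ℂ)) : Continuous (Kq q) := by
  unfold Kq
  exact continuous_const.mul ((𝓕 q).continuous.comp (continuous_id.div_const _))

lemma integrable_pow_mul_Kq (q : 𝓢(ℝ, ℂ)) (k : ℕ) :
    Integrable fun u : ℝ => |u| ^ k * ‖Kq q u‖ := by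
  have h := (𝓕 q).integrable_pow_mul volume k
  have h2 := (h.comp_div two_pi_ne).const_mul (1 / (2 * Real.pi) * (2 * Real.pi) ^ k)
  refine h2.congr (Eventually.of_forall fun u => ?_)
  change 1 / (2 * Real.pi) * (2 * Real.pi) ^ k * (‖u / (2 * Real.pi)‖ ^ k *
    ‖(𝓕 q) (u / (2 * Real.pi))‖) = |u| ^ k * ‖Kq q u‖
  have hpi : 0 < 2 * Real.pi := by positivity
  have e1 : ‖((1 / (2 * Real.pi) : ℝ) : ℂ)‖ = 1 / (2 * Real.pi) := by
    rw [norm_real, Real.norm_of_nonneg (one_div_pos.mpr hpi).le]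
  have e2 : ‖u / (2 * Real.pi)‖ = |u| / (2 * Real.pi) := by
    rw [Real.norm_eq_abs, abs_div, abs_of_pos hpi]
  unfold Kq
  rw [norm_mul, e1, e2, div_pow]
  generalize ‖(𝓕 q) (u / (2 * Real.pi))‖ = A
  generalize |u| ^ k = B
  have h3 : (2 * Real.pi) ^ k ≠ 0 := (pow_pos hpi k).ne'
  field_simp

lemma integrable_Kq (q : 𝓢(ℝ, ℂ)) : Integrable (Kq q) := by
  have h := integrable_pow_mul_Kq q 0
  simp only [pow_zero, one_mul] at h
  exact (integrable_norm_iff (continuous_Kq q).aestronglyMeasurable).mp h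

/-- Fourier inversion -/
lemma integral_Kq_mul_exp (q : 𝓢(ℝ, ℂ)) (y : ℝ) :
    ∫ u : ℝ, Kq q u * cexp (I * u * y) = q y := by
  have h1 : (𝓕⁻ (𝓕 q)) y = q y := by rw [FourierTransform.fourierInv_fourier_eq]
  rw [← h1, SchwartzMap.fourierInv_coe, Real.fourierInv_eq']
  let g : ℝ → ℂ := fun w => cexp (((2 * Real.pi * (w * y) : ℝ) : ℂ) * I) * (𝓕 q) w
  have h2 : ∀ u : ℝ, Kq q u * cexp (I * u * y) =
      ((1 / (2 * Real.pi) : ℝ) : ℂ) * g (u / (2 * Real.pi)) := by
    intro u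
    change ((1 / (2 * Real.pi) : ℝ) : ℂ) * (𝓕 q) (u / (2 * Real.pi)) * cexp (I * u * y) =
      ((1 / (2 * Real.pi) : ℝ) : ℂ) * (cexp (((2 * Real.pi * (u / (2 * Real.pi) * y) : ℝ) : ℂ) * I) *
        (𝓕 q) (u / (2 * Real.pi)))
    have e : ((2 * Real.pi * (u / (2 * Real.pi) * y) : ℝ) : ℂ) * I = I * u * y := by
      have : 2 * Real.pi * (u / (2 * Real.pi) * y) = u * y := by
        have := Real.pi_pos
        field_simp
      rw [this]
      push_cast
      ring
    rw [e]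
    ring
  have h3 : ∫ u : ℝ, g (u / (2 * Real.pi)) = |2 * Real.pi| • ∫ w : ℝ, g w :=
    Measure.integral_comp_div g (2 * Real.pi)
  rw [integral_congr_ae (Eventually.of_forall h2), integral_const_mul, h3,
    abs_of_pos (by positivity : (0 : ℝ) < 2 * Real.pi), real_smul,
    ← mul_assoc, ← ofReal_mul, one_div_mul_cancel two_pi_ne, ofReal_one, one_mul]
  apply integral_congr_ae
  filter_upwards with w
  change cexp (((2 * Real.pi * (w * y) : ℝ) : ℂ) * I) * (𝓕 q) w = _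
  rw [smul_eq_mul]
  simp only [RCLike.inner_apply, conj_trivial]
  rw [mul_comm y w]

end

end Pool.Agent.HL9
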