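import Pool.Agent.Helper9.HL.Z0
import Pool.Agent.Helper9.HL.Ker

/-!
# Multipliers applied to the zeta function
-/

set_option autoImplicit false

namespace Pool.Agent.HL9

open Complex Set MeasureTheory Filter Topology
open scoped FourierTransform SchwartzMap

noncomputable section

/-- the kernel with the multiplier `y ↦ q (y / L)` -/
def KL (q : 𝓢(ℝ, ℂ)) (L u : ℝ) : ℂ := (L : ℂ) * Kq q (L * u)

lemma continuous_KL (q : 𝓢(ℝ, ℂ)) (L : ℝ) : Continuous (KL q L) := by
  unfold KL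
  exact continuous_const.mul ((continuous_Kq q).comp (continuous_const.mul continuous_id))

lemma integral_KL_mul_exp (q : 𝓢(ℝ, ℂ)) {L : ℝ} (hL : 0 < L) (y : ℝ) :
    ∫ u : ℝ, KL q L u * cexp (I * u * y) = q (y / L) := by
  let g : ℝ → ℂ := fun x => Kq q x * cexp (I * x * ((y / L : ℝ) : ℂ))
  have h2 : ∀ u : ℝ, KL q L u * cexp (I * u * y) = (L : ℂ) * g (L * u) := by
    intro u
    change (L : ℂ) * Kq q (L * u) * cexp (I * u * y) =
      (L : ℂ) * (Kq q (L * u) * cexp (I * ((L * u : ℝ) : ℂ) * ((y / L : ℝ) : ℂ)))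
    have e : I * ((L * u : ℝ) : ℂ) * ((y / L : ℝ) : ℂ) = I * u * y := by
      have hL' : (L : ℂ) ≠ 0 := by exact_mod_cast hL.ne'
      push_cast
      field_simp
    rw [e]
    ring
  have h3 : ∫ u : ℝ, g (L * u) = |L⁻¹| • ∫ x : ℝ, g x := Measure.integral_comp_mul_left g L
  have hL' : (L : ℂ) ≠ 0 := by exact_mod_cast hL.ne'
  rw [integral_congr_ae (Eventually.of_forall h2), integral_const_mul, h3,
    abs_of_pos (inv_pos.mpr hL), real_smul, ofReal_inv, ← mul_assoc, mul_inv_cancel₀ hL', one_mul]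
  exact integral_Kq_mul_exp q (y / L)

lemma integrable_pow_mul_KL (q : 𝓢(ℝ, ℂ)) {L : ℝ} (hL : 0 < L) (k : ℕ) :
    Integrable fun u : ℝ => |u| ^ k * ‖KL q L u‖ := by
  have h := ((integrable_pow_mul_Kq q k).comp_mul_left' hL.ne').const_mul (L * (L ^ k)⁻¹)
  refine h.congr (Eventually.of_forall fun u => ?_)
  change L * (L ^ k)⁻¹ * (|L * u| ^ k * ‖Kq q (L * u)‖) = |u| ^ k * ‖KL q L u‖
  unfold KL
  rw [norm_mul, norm_real, Real.norm_of_nonneg hL.le, abs_mul, abs_of_pos hL, mul_pow]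
  have : L ^ k ≠ 0 := (pow_pos hL k).ne'
  field_simp

lemma integrable_KL (q : 𝓢(ℝ, ℂ)) {L : ℝ} (hL : 0 < L) : Integrable (KL q L) := by
  have h := integrable_pow_mul_KL q hL 0
  simp only [pow_zero, one_mul] at h
  exact (integrable_norm_iff (continuous_KL q L).aestronglyMeasurable).mp h

/-- moments of the kernel -/
lemma moment_KL (q : 𝓢(ℝ, ℂ)) {L : ℝ} (hL : 0 < L) (k : ℕ) :
    ∫ u : ℝ, |u| ^ k * ‖KL q L u‖ = (L ^ k)⁻¹ * ∫ x : ℝ, |x| ^ k * ‖Kq q x‖ := by
  let g : ℝ → ℝ := fun x => |x| ^ k * ‖Kq q x‖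
  have h2 : ∀ u : ℝ, |u| ^ k * ‖KL q L u‖ = (L * (L ^ k)⁻¹) * g (L * u) := by
    intro u
    change |u| ^ k * ‖KL q L u‖ = L * (L ^ k)⁻¹ * (|L * u| ^ k * ‖Kq q (L * u)‖)
    unfold KL
    rw [norm_mul, norm_real, Real.norm_of_nonneg hL.le, abs_mul, abs_of_pos hL, mul_pow]
    have : L ^ k ≠ 0 := (pow_pos hL k).ne'
    field_simp
  have h3 : ∫ u : ℝ, g (L * u) = |L⁻¹| • ∫ x : ℝ, g x := Measure.integral_comp_mul_left g L
  rw [integral_congr_ae (Eventually.of_forall h2), integral_const_mul, h3,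
    abs_of_pos (inv_pos.mpr hL), smul_eq_mul]
  have : L ^ k ≠ 0 := (pow_pos hL k).ne'
  change L * (L ^ k)⁻¹ * (L⁻¹ * ∫ x : ℝ, g x) = (L ^ k)⁻¹ * ∫ x : ℝ, g x
  field_simp

lemma integrable_KL_mul (q : 𝓢(ℝ, ℂ)) {L : ℝ} (hL : 0 < L) (t : ℝ) :
    Integrable fun u : ℝ => ‖KL q L u‖ * (1 + |t - u|) := by
  have h0 := integrable_pow_mul_KL q hL 0
  have h1 := integrable_pow_mul_KL q hL 1
  simp only [pow_zero, one_mul, pow_one] at h0 h1
  have h2 := (h0.mul_const (1 + |t|)).add h1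
  refine h2.mono' (((continuous_KL q L).norm.mul (continuous_const.add
    (continuous_const.sub continuous_id).abs)).aestronglyMeasurable) (Eventually.of_forall fun u => ?_)
  rw [Real.norm_of_nonneg (by positivity)]
  change ‖KL q L u‖ * (1 + |t - u|) ≤ ‖KL q L u‖ * (1 + |t|) + |u| * ‖KL q L u‖
  have h3 : |t - u| ≤ |t| + |u| := abs_sub _ _
  nlinarith [norm_nonneg (KL q L u)]

/-! ## The terms -/

lemma cpow_hl {n : ℕ} (hn : 1 ≤ n) (t u : ℝ) :
    (n : ℂ) ^ (-hl (t - u)) = (n : ℂ) ^ (-hl t) * cexp (I * u * (Real.log n : ℝ)) := by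
  have hn0 : (n : ℂ) ≠ 0 := by
    have : n ≠ 0 := by omega
    exact_mod_cast this
  have e : -hl (t - u) = -hl t + I * u := by unfold hl; push_cast; ring
  rw [e, Complex.cpow_add _ _ hn0]
  congr 1
  rw [Complex.cpow_def_of_ne_zero hn0, ← Complex.natCast_log]
  congr 1
  ring

lemma conv_term (q : 𝓢(ℝ, ℂ)) {L : ℝ} (hL : 0 < L) {n : ℕ} (hn : 1 ≤ n) (t : ℝ) :
    ∫ u : ℝ, KL q L u * (n : ℂ) ^ (-hl (t - u)) = q (Real.log n / L) * (n : ℂ) ^ (-hl t) := by
  rw [← integral_KL_mul_exp q hL (Real.log n), mul_comm, ← integral_const_mul]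
  apply integral_congr_ae
  filter_upwards with u
  rw [cpow_hl hn]
  ring

lemma norm_cpow_hl {n : ℕ} (hn : 1 ≤ n) (t : ℝ) :
    ‖(n : ℂ) ^ (-hl t)‖ = (n : ℝ) ^ (-(1 / 2) : ℝ) := by
  have hn0 : (0 : ℝ) < n := by exact_mod_cast hn
  have h := Complex.norm_cpow_eq_rpow_re_of_pos hn0 (-hl t)
  rw [neg_re, hl_re] at h
  rw [← h, ofReal_natCast]

lemma continuous_hl : Continuous hl := by unfold hl; fun_prop

lemma continuous_cpow_hl {n : ℕ} (hn : 1 ≤ n) : Continuous fun t : ℝ => (n : ℂ) ^ (-hl t) := by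
  have hn0 : (n : ℂ) ≠ 0 := by
    have : n ≠ 0 := by omega
    exact_mod_cast this
  exact (continuous_hl.neg).const_cpow (Or.inl hn0)

lemma integrable_term (q : 𝓢(ℝ, ℂ)) {L : ℝ} (hL : 0 < L) {n : ℕ} (hn : 1 ≤ n) (t : ℝ) :
    Integrable fun u : ℝ => KL q L u * (n : ℂ) ^ (-hl (t - u)) := by
  refine (integrable_KL q hL).mul_bdd (c := 1) ?_ ?_
  · exact ((continuous_cpow_hl hn).comp (continuous_const.sub continuous_id)).aestronglyMeasurable
  · filter_upwards with u
    rw [norm_cpow_hl hn]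
    apply Real.rpow_le_one_of_one_le_of_nonpos
    · exact_mod_cast hn
    · norm_num

/-- the pole term -/
def PN (N : ℕ) (t : ℝ) : ℂ := (N : ℂ) ^ (1 - hl t) / (1 - hl t)

lemma one_sub_hl_re (t : ℝ) : (1 - hl t).re = 1 / 2 := by
  rw [sub_re, one_re, hl_re]; norm_num

lemma one_sub_hl_ne (t : ℝ) : 1 - hl t ≠ 0 := sub_ne_zero.mpr (hl_ne_one t).symm

lemma PN_eq {N : ℕ} (hN : 1 ≤ N) (t : ℝ) :
    PN N t = ∫ y in Iic (Real.log N), cexp (y * (1 - hl t)) := by
  have hN0 : (N : ℂ) ≠ 0 := by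
    have : N ≠ 0 := by omega
    exact_mod_cast this
  have h := integral_exp_mul_complex_Iic (a := 1 - hl t) (by rw [one_sub_hl_re]; norm_num)
    (Real.log N)
  have e : ∀ y : ℝ, cexp (y * (1 - hl t)) = cexp ((1 - hl t) * y) := fun y => by rw [mul_comm]
  simp only [e]
  rw [h]
  unfold PN
  congr 1
  rw [Complex.cpow_def_of_ne_zero hN0, ← Complex.natCast_log, mul_comm]

lemma conv_pole (q : 𝓢(ℝ, ℂ)) {L : ℝ} (hL : 0 < L) {N : ℕ} (hN : 1 ≤ N) (t : ℝ) :
    ∫ u : ℝ, KL q L u * PN N (t - u) =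
      ∫ y in Iic (Real.log N), q (y / L) * cexp (y * (1 - hl t)) := by
  have h1 : ∀ u : ℝ, KL q L u * PN N (t - u) =
      ∫ y in Iic (Real.log N), KL q L u * cexp (y * (1 - hl t)) * cexp (I * u * y) := by
    intro u
    rw [PN_eq hN, ← integral_const_mul]
    apply integral_congr_ae
    filter_upwards with y
    have e : (y : ℂ) * (1 - hl (t - u)) = y * (1 - hl t) + I * u * y := by
      unfold hl; push_cast; ring
    rw [e, Complex.exp_add]
    ring
  have hint : Integrable (Function.uncurry fun (u y : ℝ) =>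
      KL q L u * cexp (y * (1 - hl t)) * cexp (I * u * y))
      ((volume : Measure ℝ).prod (volume.restrict (Iic (Real.log N)))) := by
    have hexp : Integrable (fun y : ℝ => cexp (y * (1 - hl t))) (volume.restrict (Iic (Real.log N))) := by
      have := integrableOn_exp_mul_complex_Iic (a := 1 - hl t)
        (by rw [one_sub_hl_re]; norm_num) (Real.log N)
      refine this.congr (Eventually.of_forall fun y => ?_)
      change cexp ((1 - hl t) * y) = cexp (y * (1 - hl t))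
      rw [mul_comm]
    have h2 := (integrable_KL q hL).mul_prod hexp
    refine h2.mul_bdd (c := 1) ?_ ?_
    · apply Continuous.aestronglyMeasurable
      exact Complex.continuous_exp.comp ((continuous_const.mul
        (Complex.continuous_ofReal.comp continuous_fst)).mul
        (Complex.continuous_ofReal.comp continuous_snd))
    · filter_upwards with z
      have : I * (z.1 : ℂ) * (z.2 : ℂ) = ((z.1 * z.2 : ℝ) : ℂ) * I := by push_cast; ring
      rw [this, Complex.norm_exp_ofReal_mul_I]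
  rw [integral_congr_ae (Eventually.of_forall h1), integral_integral_swap hint]
  apply integral_congr_ae
  filter_upwards with y
  have h3 : ∀ u : ℝ, KL q L u * cexp (y * (1 - hl t)) * cexp (I * u * y) =
      cexp (y * (1 - hl t)) * (KL q L u * cexp (I * u * y)) := fun u => by ring
  rw [integral_congr_ae (Eventually.of_forall h3), integral_const_mul, integral_KL_mul_exp q hL]
  ring

lemma norm_PN_le {N : ℕ} (hN : 1 ≤ N) (t : ℝ) : ‖PN N t‖ ≤ 2 * (N : ℝ) ^ (1 / 2 : ℝ) := by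
  have hN0 : (0 : ℝ) < N := by exact_mod_cast hN
  unfold PN
  rw [norm_div]
  have h1 : ‖(N : ℂ) ^ (1 - hl t)‖ = (N : ℝ) ^ (1 / 2 : ℝ) := by
    have h := Complex.norm_cpow_eq_rpow_re_of_pos hN0 (1 - hl t)
    rw [one_sub_hl_re] at h
    rw [← h, ofReal_natCast]
  have h2 : 1 / 2 ≤ ‖1 - hl t‖ := by
    have := Complex.abs_re_le_norm (1 - hl t)
    rw [one_sub_hl_re, abs_of_pos (by norm_num)] at this
    exact this
  rw [h1, div_le_iff₀ (by linarith)]
  have h3 : (0 : ℝ) ≤ (N : ℝ) ^ (1 / 2 : ℝ) := Real.rpow_nonneg hN0.le _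
  nlinarith

lemma continuous_PN {N : ℕ} (hN : 1 ≤ N) : Continuous (PN N) := by
  have hN0 : (N : ℂ) ≠ 0 := by
    have : N ≠ 0 := by omega
    exact_mod_cast this
  unfold PN
  refine Continuous.div ?_ (continuous_const.sub continuous_hl) one_sub_hl_ne
  exact (continuous_const.sub continuous_hl).const_cpow (Or.inl hN0)

lemma integrable_pole (q : 𝓢(ℝ, ℂ)) {L : ℝ} (hL : 0 < L) {N : ℕ} (hN : 1 ≤ N) (t : ℝ) :
    Integrable fun u : ℝ => KL q L u * PN N (t - u) := by
  refine (integrable_KL q hL).mul_bdd (c := 2 * (N : ℝ) ^ (1 / 2 : ℝ)) ?_ ?_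
  · exact ((continuous_PN hN).comp (continuous_const.sub continuous_id)).aestronglyMeasurable
  · filter_upwards with u
    exact norm_PN_le hN _

lemma continuous_zeta_hl : Continuous fun t : ℝ => riemannZeta (hl t) := by
  rw [continuous_iff_continuousAt]
  intro t
  exact ContinuousAt.comp (g := riemannZeta) (differentiableAt_riemannZeta (hl_ne_one t)).continuousAt
    continuous_hl.continuousAt

lemma continuous_EN {N : ℕ} (hN : 1 ≤ N) : Continuous (EN N) := by
  unfold EN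
  refine continuous_zeta_hl.sub (Continuous.sub ?_ (continuous_PN hN))
  apply continuous_finset_sum
  intro n hn
  exact continuous_cpow_hl (Finset.mem_Icc.mp hn).1

lemma integrable_EN (q : 𝓢(ℝ, ℂ)) {L : ℝ} (hL : 0 < L) {N : ℕ} (hN : 1 ≤ N) (t : ℝ) :
    Integrable fun u : ℝ => KL q L u * EN N (t - u) := by
  have h := (integrable_KL_mul q hL t).const_mul (2 * (N : ℝ) ^ (-(1 / 2) : ℝ))
  refine h.mono' (((continuous_KL q L).mul ((continuous_EN hN).comp
    (continuous_const.sub continuous_id))).aestronglyMeasurable) (Eventually.of_forall fun u => ?_)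
  rw [norm_mul]
  have h1 := norm_EN_le hN (t - u)
  calc ‖KL q L u‖ * ‖EN N (t - u)‖ ≤ ‖KL q L u‖ * (2 * (1 + |t - u|) * (N : ℝ) ^ (-(1 / 2) : ℝ)) :=
        mul_le_mul_of_nonneg_left h1 (norm_nonneg _)
    _ = _ := by ring

/-- the multiplier `q (y / L)` applied to the zeta function -/
def CZ (q : 𝓢(ℝ, ℂ)) (L t : ℝ) : ℂ := ∫ u : ℝ, KL q L u * riemannZeta (hl (t - u))

/-- **The multiplier `q (y / L)` applied to the zeta function**, truncated at `N`. -/
theorem conv_trunc (q : 𝓢(ℝ, ℂ)) {L : ℝ} (hL : 0 < L) {N : ℕ} (hN : 1 ≤ N) (t : ℝ) :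
    ‖CZ q L t -
      (∑ n ∈ Finset.Icc 1 N, q (Real.log n / L) * (n : ℂ) ^ (-hl t) -
        ∫ y in Iic (Real.log N), q (y / L) * cexp (y * (1 - hl t)))‖ ≤
      2 * (N : ℝ) ^ (-(1 / 2) : ℝ) * ∫ u : ℝ, ‖KL q L u‖ * (1 + |t - u|) := by
  have hsplit : ∀ u : ℝ, KL q L u * riemannZeta (hl (t - u)) =
      (∑ n ∈ Finset.Icc 1 N, KL q L u * (n : ℂ) ^ (-hl (t - u)) - KL q L u * PN N (t - u)) +
        KL q L u * EN N (t - u) := by
    intro u
    rw [← Finset.mul_sum]
    unfold EN PN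
    ring
  have hi1 : Integrable fun u : ℝ => ∑ n ∈ Finset.Icc 1 N, KL q L u * (n : ℂ) ^ (-hl (t - u)) :=
    integrable_finset_sum _ fun n hn => integrable_term q hL (Finset.mem_Icc.mp hn).1 t
  have hi2 := integrable_pole q hL hN t
  have hi3 := integrable_EN q hL hN t
  have hsplit' : CZ q L t = ∫ u : ℝ, ((∑ n ∈ Finset.Icc 1 N, KL q L u * (n : ℂ) ^ (-hl (t - u)) -
      KL q L u * PN N (t - u)) + KL q L u * EN N (t - u)) :=
    integral_congr_ae (Eventually.of_forall hsplit)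
  have hi12 : Integrable fun u : ℝ => (∑ n ∈ Finset.Icc 1 N, KL q L u * (n : ℂ) ^ (-hl (t - u))) -
      KL q L u * PN N (t - u) := hi1.sub hi2
  rw [hsplit', integral_add hi12 hi3,
    integral_sub hi1 hi2, integral_finset_sum _ fun n hn =>
      integrable_term q hL (Finset.mem_Icc.mp hn).1 t, conv_pole q hL hN,
    Finset.sum_congr rfl fun n hn => conv_term q hL (Finset.mem_Icc.mp hn).1 t, add_sub_cancel_left]
  have h := (integrable_KL_mul q hL t).const_mul (2 * (N : ℝ) ^ (-(1 / 2) : ℝ))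
  refine (norm_integral_le_of_norm_le h (Eventually.of_forall fun u => ?_)).trans (le_of_eq ?_)
  · rw [norm_mul]
    have h1 := norm_EN_le hN (t - u)
    calc ‖KL q L u‖ * ‖EN N (t - u)‖ ≤
          ‖KL q L u‖ * (2 * (1 + |t - u|) * (N : ℝ) ^ (-(1 / 2) : ℝ)) :=
          mul_le_mul_of_nonneg_left h1 (norm_nonneg _)
      _ = _ := by ring
  · rw [integral_const_mul]

/-- **(A)** The multiplier `q (y / L)` applied to the zeta function. -/
theorem conv_eq (q : 𝓢(ℝ, ℂ)) {L : ℝ} (hL : 0 < L) {N : ℕ} (hN : 1 ≤ N)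
    (hq : ∀ y : ℝ, Real.log N < y → q (y / L) = 0) (t : ℝ) :
    CZ q L t = ∑ n ∈ Finset.Icc 1 N, q (Real.log n / L) * (n : ℂ) ^ (-hl t) -
        ∫ y : ℝ, q (y / L) * cexp (y * (1 - hl t)) := by
  rw [← sub_eq_zero, ← norm_le_zero_iff]
  have hlim : Tendsto (fun M : ℕ => 2 * (M : ℝ) ^ (-(1 / 2) : ℝ) *
      ∫ u : ℝ, ‖KL q L u‖ * (1 + |t - u|)) atTop
      (𝓝 (2 * 0 * ∫ u : ℝ, ‖KL q L u‖ * (1 + |t - u|))) :=
    (((tendsto_rpow_neg_atTop (by norm_num : (0 : ℝ) < 1 / 2)).comp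
      tendsto_natCast_atTop_atTop).const_mul 2).mul_const _
  rw [mul_zero, zero_mul] at hlim
  refine ge_of_tendsto hlim ?_
  filter_upwards [eventually_ge_atTop N] with M hM
  have h := conv_trunc q hL (hN.trans hM) t
  have hN0 : (0 : ℝ) < N := by exact_mod_cast hN
  have hlog : Real.log N ≤ Real.log M := Real.log_le_log hN0 (by exact_mod_cast hM)
  have e1 : ∑ n ∈ Finset.Icc 1 M, q (Real.log n / L) * (n : ℂ) ^ (-hl t) =
      ∑ n ∈ Finset.Icc 1 N, q (Real.log n / L) * (n : ℂ) ^ (-hl t) := by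
    symm
    apply Finset.sum_subset (Finset.Icc_subset_Icc_right hM)
    intro n hn hn'
    have h1 : N < n := by
      by_contra hcon
      exact hn' (Finset.mem_Icc.mpr ⟨(Finset.mem_Icc.mp hn).1, by omega⟩)
    rw [hq (Real.log n) (Real.log_lt_log hN0 (by exact_mod_cast h1)), zero_mul]
  have e2 : ∫ y in Iic (Real.log M), q (y / L) * cexp (y * (1 - hl t)) =
      ∫ y : ℝ, q (y / L) * cexp (y * (1 - hl t)) := by
    apply setIntegral_eq_integral_of_forall_compl_eq_zero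
    intro y hy
    rw [mem_Iic, not_le] at hy
    rw [hq y (hlog.trans_lt hy), zero_mul]
  rw [e1, e2] at h
  exact h

/-- **(B)** A multiplier which is `1` on the relevant range. -/
theorem conv_one (q : 𝓢(ℝ, ℂ)) {L C : ℝ} (hL : 0 < L) (hC : ∀ y, ‖q y - 1‖ ≤ C) {N : ℕ}
    (hN : 1 ≤ N) (hNL : Real.log N ≤ 4 * L) (hq : ∀ y : ℝ, -3 ≤ y → y ≤ 4 → q y = 1) (t : ℝ) :
    ‖CZ q L t - riemannZeta (hl t)‖ ≤
      2 * (N : ℝ) ^ (-(1 / 2) : ℝ) * ((∫ u : ℝ, ‖KL q L u‖ * (1 + |t - u|)) + (1 + |t|)) +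
        2 * C * Real.exp (-(3 * L / 2)) := by
  have hC0 : 0 ≤ C := (norm_nonneg _).trans (hC 0)
  have h := conv_trunc q hL hN t
  have h2 := norm_EN_le hN t
  have hN0 : (0 : ℝ) < N := by exact_mod_cast hN
  have e1 : ∑ n ∈ Finset.Icc 1 N, q (Real.log n / L) * (n : ℂ) ^ (-hl t) =
      ∑ n ∈ Finset.Icc 1 N, (n : ℂ) ^ (-hl t) := by
    apply Finset.sum_congr rfl
    intro n hn
    obtain ⟨hn1, hn2⟩ := Finset.mem_Icc.mp hn
    have hn0 : (0 : ℝ) < n := by exact_mod_cast hn1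
    have h3 : 0 ≤ Real.log n := Real.log_nonneg (by exact_mod_cast hn1)
    have h4 : Real.log n ≤ 4 * L := (Real.log_le_log hn0 (by exact_mod_cast hn2)).trans hNL
    rw [hq _ (by have := div_nonneg h3 hL.le; linarith) (by rw [div_le_iff₀ hL]; exact h4), one_mul]
  have hexp : IntegrableOn (fun y : ℝ => cexp (y * (1 - hl t))) (Iic (Real.log N)) := by
    have := integrableOn_exp_mul_complex_Iic (a := 1 - hl t)
      (by rw [one_sub_hl_re]; norm_num) (Real.log N)
    refine this.congr (Eventually.of_forall fun y => ?_)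
    change cexp ((1 - hl t) * y) = cexp (y * (1 - hl t))
    rw [mul_comm]
  have hqexp : IntegrableOn (fun y : ℝ => (q (y / L) - 1) * cexp (y * (1 - hl t)))
      (Iic (Real.log N)) := by
    refine hexp.bdd_mul (c := C) ?_ (Eventually.of_forall fun y => hC _)
    exact ((q.continuous.comp (continuous_id.div_const _)).sub
      continuous_const).aestronglyMeasurable
  have e2 : ∫ y in Iic (Real.log N), q (y / L) * cexp (y * (1 - hl t)) =
      PN N t + ∫ y in Iic (Real.log N), (q (y / L) - 1) * cexp (y * (1 - hl t)) := by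
    rw [PN_eq hN, ← integral_add hexp hqexp]
    apply integral_congr_ae
    filter_upwards with y
    ring
  have h5 : ‖∫ y in Iic (Real.log N), (q (y / L) - 1) * cexp (y * (1 - hl t))‖ ≤
      2 * C * Real.exp (-(3 * L / 2)) := by
    have hN1 : 0 ≤ Real.log N := Real.log_nonneg (by exact_mod_cast hN)
    have h6 : ∫ y in Iic (Real.log N), (q (y / L) - 1) * cexp (y * (1 - hl t)) =
        ∫ y in Iic (-(3 * L)), (q (y / L) - 1) * cexp (y * (1 - hl t)) := by
      apply setIntegral_eq_of_subset_of_forall_diff_eq_zero measurableSet_Iic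
        (Iic_subset_Iic.mpr (by linarith))
      rintro y ⟨hy1, hy2⟩
      rw [mem_Iic] at hy1
      rw [mem_Iic, not_le] at hy2
      rw [hq (y / L) (by rw [le_div_iff₀ hL]; linarith) (by rw [div_le_iff₀ hL]; linarith),
        sub_self, zero_mul]
    rw [h6]
    have hg : IntegrableOn (fun y : ℝ => C * Real.exp (1 / 2 * y)) (Iic (-(3 * L))) :=
      (integrableOn_exp_mul_Iic (by norm_num) _).const_mul C
    refine (norm_integral_le_of_norm_le hg (Eventually.of_forall fun y => ?_)).trans (le_of_eq ?_)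
    · rw [norm_mul]
      have h7 : ‖cexp (y * (1 - hl t))‖ = Real.exp (1 / 2 * y) := by
        rw [Complex.norm_exp]
        congr 1
        rw [re_ofReal_mul, one_sub_hl_re]
        ring
      rw [h7]
      exact mul_le_mul_of_nonneg_right (hC _) (Real.exp_nonneg _)
    · rw [integral_const_mul, integral_exp_mul_Iic (by norm_num)]
      rw [show 1 / 2 * -(3 * L) = -(3 * L / 2) by ring]
      ring
  have e3 : riemannZeta (hl t) = ∑ n ∈ Finset.Icc 1 N, (n : ℂ) ^ (-hl t) - PN N t + EN N t := by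
    unfold EN PN; ring
  rw [e1, e2] at h
  rw [e3]
  set S := ∑ n ∈ Finset.Icc 1 N, (n : ℂ) ^ (-hl t)
  set J := ∫ y in Iic (Real.log N), (q (y / L) - 1) * cexp (y * (1 - hl t))
  have e4 : CZ q L t - (S - PN N t + EN N t) = (CZ q L t - (S - (PN N t + J))) - EN N t - J := by
    ring
  rw [e4]
  refine (norm_sub_le _ _).trans ((add_le_add (norm_sub_le _ _) h5).trans ?_)
  linarith

end

end Pool.Agent.HL9
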