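import Pool.Agent.Helper9.HL.Dual
import Pool.Agent.Helper33.HG.Cut

/-!
# The smooth approximate functional equation
-/

set_option autoImplicit false

namespace Pool.Agent.HL9

open Complex Set MeasureTheory Filter Topology
open scoped FourierTransform SchwartzMap ComplexConjugate
open Pool.Agent.Helper44.HL (chi)
open Pool.Agent.Helper33.HG (kapf kc kc_contDiff kc_compact kapf_zero_right kapf_symm kapf_nonneg
  kapf_le_one)

noncomputable section

/-- the cut -/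
def qa (d : ℝ) (hd : 0 < d) : 𝓢(ℝ, ℂ) := (kc_compact hd).toSchwartzMap (kc_contDiff d)

lemma qa_apply (d : ℝ) (hd : 0 < d) (a : ℝ) : qa d hd a = kc d a := rfl

lemma cs_dual {d : ℝ} (hd : 0 < d) : HasCompactSupport fun a : ℝ => kc d (1 - a) :=
  (kc_compact hd).comp_homeomorph (Homeomorph.subLeft 1)

lemma cd_dual (d : ℝ) {n : ℕ∞} : ContDiff ℝ n fun a : ℝ => kc d (1 - a) :=
  (kc_contDiff d).comp (contDiff_const.sub contDiff_id)

/-- the dual cut -/
def qb (d : ℝ) (hd : 0 < d) : 𝓢(ℝ, ℂ) := (cs_dual hd).toSchwartzMap (cd_dual d)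

lemma qb_apply (d : ℝ) (hd : 0 < d) (a : ℝ) : qb d hd a = kc d (1 - a) := rfl

lemma cs_shift {d : ℝ} (hd : 0 < d) (w : ℝ) : HasCompactSupport fun a : ℝ => kc d (a - w) :=
  (kc_compact hd).comp_homeomorph (Homeomorph.subRight w)

lemma cd_shift (d w : ℝ) {n : ℕ∞} : ContDiff ℝ n fun a : ℝ => kc d (a - w) :=
  (kc_contDiff d).comp (contDiff_id.sub contDiff_const)

/-- the shifted cut -/
def qs (d : ℝ) (hd : 0 < d) (w : ℝ) : 𝓢(ℝ, ℂ) := (cs_shift hd w).toSchwartzMap (cd_shift d w)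

lemma qs_apply (d : ℝ) (hd : 0 < d) (w a : ℝ) : qs d hd w a = kc d (a - w) := rfl

lemma kc_zero {d : ℝ} (hd : 0 < d) {v : ℝ} (h : 1 / 2 + d ≤ v) : kc d v = 0 := by
  rw [kc, kapf_zero_right hd h, ofReal_zero]

lemma conj_kc (d v : ℝ) : conj (kc d v) = kc d v := by rw [kc, conj_ofReal]

lemma norm_kc_le (d v : ℝ) : ‖kc d v‖ ≤ 1 := by
  rw [kc, norm_real, Real.norm_of_nonneg (kapf_nonneg _ _)]
  exact kapf_le_one _ _

lemma hasDerivAt_kc (d v : ℝ) : HasDerivAt (kc d) (deriv (kc d) v) v :=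
  ((kc_contDiff d (n := 1)).differentiable (by norm_num) v).hasDerivAt

lemma continuous_deriv_kc (d : ℝ) : Continuous (deriv (kc d)) :=
  (kc_contDiff d (n := 1)).continuous_deriv (by norm_num)

lemma deriv_kc_zero {d : ℝ} (hd : 0 < d) {v : ℝ} (h : 1 / 2 + d < v) : deriv (kc d) v = 0 := by
  have : kc d =ᶠ[𝓝 v] fun _ => 0 := by
    filter_upwards [Ioi_mem_nhds h] with y hy
    exact kc_zero hd (le_of_lt hy)
  rw [this.deriv_eq]
  simp

lemma exists_deriv_bound {d : ℝ} (hd : 0 < d) : ∃ D : ℝ, 0 ≤ D ∧ ∀ v, ‖deriv (kc d) v‖ ≤ D := by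
  obtain ⟨D, hD⟩ := (continuous_deriv_kc d).bounded_above_of_compact_support (kc_compact hd).deriv
  exact ⟨D, (norm_nonneg _).trans (hD 0), hD⟩

/-- the pole term of the shifted cut -/
lemma pole_shift {d : ℝ} (hd : 0 < d) (hd2 : d ≤ 1 / 40) {D : ℝ} (hD : ∀ v, ‖deriv (kc d) v‖ ≤ D)
    {w : ℝ} (hw : w ≤ 0) {L : ℝ} (hL : 1 ≤ L) {t : ℝ} (ht : 0 < t) :
    ‖∫ y : ℝ, qs d hd w (y / L) * cexp (y * (1 - hl t))‖ ≤
      2 * D * Real.exp (21 / 40 * L / 2) / t := by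
  refine pole_small (q' := fun v => deriv (kc d) (v - w)) (fun v => ?_) ?_ ?_ ?_ ?_ ?_ hL ht
  · have h1 : HasDerivAt (fun v : ℝ => v - w) 1 v := (hasDerivAt_id v).sub_const w
    have h2 := (hasDerivAt_kc d (v - w)).scomp v h1
    rw [one_smul] at h2
    exact h2
  · exact (continuous_deriv_kc d).comp (continuous_id.sub continuous_const)
  · exact cs_shift hd w
  · exact ((kc_compact hd).deriv).comp_homeomorph (Homeomorph.subRight w)
  · intro v hv
    exact deriv_kc_zero hd (by linarith)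
  · intro v
    exact hD _

lemma qs_zero (d : ℝ) (hd : 0 < d) (a : ℝ) : qs d hd 0 a = qa d hd a := by
  rw [qs_apply, qa_apply, sub_zero]

/-- the main sum of the shifted cut -/
lemma CZ_shift {d : ℝ} (hd : 0 < d) (hd2 : d ≤ 1 / 40) {w : ℝ} (hw : w ≤ 0) {T : ℝ} (hT : 10 ≤ T)
    (t : ℝ) :
    CZ (qs d hd w) (Real.log T) t =
      ∑ n ∈ Finset.Icc 1 ⌊T⌋₊, kc d (Real.log n / Real.log T - w) * (n : ℂ) ^ (-hl t) -
        ∫ y : ℝ, qs d hd w (y / Real.log T) * cexp (y * (1 - hl t)) := by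
  have hT0 : 0 < T := by linarith
  have h2 : (2 : ℝ) < Real.log T := by
    have h3 : Real.exp 2 < T := by
      have h4 : Real.exp 1 < 2.7182818286 := Real.exp_one_lt_d9
      have h5 : Real.exp 2 = Real.exp 1 * Real.exp 1 := by rw [← Real.exp_add]; norm_num
      have h6 := Real.exp_pos 1
      rw [h5]
      nlinarith
    exact (Real.lt_log_iff_exp_lt hT0).mpr h3
  have hL : 0 < Real.log T := by linarith
  have hN : 1 ≤ ⌊T⌋₊ := Nat.one_le_floor_iff T |>.mpr (by linarith)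
  have hN0 : (0 : ℝ) < ⌊T⌋₊ := by exact_mod_cast hN
  apply conv_eq (qs d hd w) hL hN
  intro y hy
  rw [qs_apply]
  apply kc_zero hd
  have h7 : T / 2 ≤ ⌊T⌋₊ := by
    have := Nat.lt_floor_add_one T
    have h8 : (1 : ℝ) ≤ ⌊T⌋₊ := by exact_mod_cast hN
    linarith
  have h8 : Real.log T - Real.log 2 ≤ Real.log ⌊T⌋₊ := by
    rw [← Real.log_div hT0.ne' (by norm_num)]
    exact Real.log_le_log (by positivity) h7
  have h9 : Real.log 2 < 0.6931471808 := Real.log_two_lt_d9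
  have h10 : 21 / 40 ≤ y / Real.log T := by
    rw [le_div_iff₀ hL]
    linarith
  linarith

/-- **The smooth approximate functional equation.** -/
theorem afe_core {d : ℝ} (hd : 0 < d) (hd2 : d ≤ 1 / 40) : ∃ C : ℝ, 0 < C ∧ ∀ T : ℝ, 10 ≤ T →
    ∀ t ∈ Icc T (2 * T), ∀ w : ℝ, Real.log T * w = Real.log (t / (2 * Real.pi)) - Real.log T →
    ‖riemannZeta (hl t) -
      ∑ n ∈ Finset.Icc 1 ⌊T⌋₊, kc d (Real.log n / Real.log T) * (n : ℂ) ^ (-hl t) -
      chi t * conj (∑ n ∈ Finset.Icc 1 ⌊T⌋₊,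
        kc d (Real.log n / Real.log T - w) * (n : ℂ) ^ (-hl t))‖ ≤ C * T ^ (-(1 / 2) : ℝ) := by
  obtain ⟨D, hD0, hD⟩ := exists_deriv_bound hd
  set Q : 𝓢(ℝ, ℂ) := qa d hd + qb d hd with hQ
  have hM := M3_nonneg Q
  have hM' := M3_nonneg (qa d hd)
  refine ⟨12 * (M3 Q + 1) + 6 + 4 * D + 208 * M3 (qa d hd), by positivity, ?_⟩
  intro T hT t ht w hw
  obtain ⟨ht1, ht2⟩ := ht
  have hT0 : 0 < T := by linarith
  have ht0 : 0 < t := by linarith
  have hL1 : 1 ≤ Real.log T := by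
    have h4 : Real.exp 1 < 2.7182818286 := Real.exp_one_lt_d9
    exact (Real.le_log_iff_exp_le hT0).mpr (by linarith)
  have hL0 : 0 < Real.log T := by linarith
  have hpi : 3 < Real.pi := Real.pi_gt_three
  have hw0 : w ≤ 0 := by
    have h1 : Real.log (t / (2 * Real.pi)) ≤ Real.log T := by
      apply Real.log_le_log (by positivity)
      rw [div_le_iff₀ (by positivity)]
      nlinarith
    by_contra hcon
    push Not at hcon
    have := mul_pos hL0 hcon
    linarith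
  -- the identity
  have a1 := conv_dual (qa d hd) (qb d hd) (qs d hd w) hL1 ht0 hw
    (fun a => by rw [qb_apply, qa_apply, conj_kc]) (fun a => by rw [qs_apply, qa_apply])
  have a2 := CZ_shift hd hd2 hw0 hT t
  have a3 := CZ_shift hd hd2 (le_refl (0 : ℝ)) hT t
  have ezero : qs d hd 0 = qa d hd := by
    ext a
    exact qs_zero d hd a
  rw [ezero] at a3
  simp only [sub_zero] at a3
  have p2 := pole_shift hd hd2 hD hw0 hL1 ht0
  have p3 := pole_shift hd hd2 hD (le_refl (0 : ℝ)) hL1 ht0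
  rw [ezero] at p3
  -- the number of terms
  set N : ℕ := ⌊T ^ 4⌋₊ with hN
  have hT4 : (1 : ℝ) ≤ T ^ 4 := one_le_pow₀ (by linarith)
  have hN1 : 1 ≤ N := (Nat.one_le_floor_iff _).mpr hT4
  have hN0 : (0 : ℝ) < N := by exact_mod_cast hN1
  have hNle : (N : ℝ) ≤ T ^ 4 := Nat.floor_le (by positivity)
  have hNL : Real.log N ≤ 4 * Real.log T := by
    have := Real.log_le_log hN0 hNle
    rw [Real.log_pow] at this
    exact_mod_cast this
  have hQ1 : ∀ y : ℝ, -3 ≤ y → y ≤ 4 → Q y = 1 := by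
    intro y h1 h2
    rw [hQ, SchwartzMap.add_apply, qa_apply, qb_apply, kc, kc, ← ofReal_add,
      kapf_symm hd (by linarith) (by linarith), ofReal_one]
  have hQC : ∀ y : ℝ, ‖Q y - 1‖ ≤ 3 := by
    intro y
    rw [hQ, SchwartzMap.add_apply, qa_apply, qb_apply]
    refine (norm_sub_le _ _).trans ?_
    have := norm_add_le (kc d y) (kc d (1 - y))
    have h1 := norm_kc_le d y
    have h2 := norm_kc_le d (1 - y)
    rw [norm_one]
    linarith
  have a4 := conv_one Q hL0 hQC hN1 hNL hQ1 t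
  rw [hQ, CZ_add _ _ hL0, ← hQ] at a4
  have a5 := integral_KL_mul_le Q hL1 t
  -- numerical bounds
  set X : ℝ := T ^ (-(1 / 2) : ℝ) with hX
  have hX0 : 0 < X := Real.rpow_pos_of_pos hT0 _
  have hXs : X = 1 / √T := by rw [hX, Real.rpow_neg hT0.le, ← Real.sqrt_eq_rpow, one_div]
  have hsT : 1 ≤ √T := Real.one_le_sqrt.mpr (by linarith)
  have hsq := Real.sq_sqrt hT0.le
  have hinvT : 1 / T ≤ X := by
    rw [hXs]
    exact one_div_le_one_div_of_le (by linarith) (by nlinarith)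
  have habs : |t| = t := abs_of_pos ht0
  -- first term
  have b1 : (N : ℝ) ^ (-(1 / 2) : ℝ) ≤ 2 / T ^ 2 := by
    have h1 : T ^ 4 / 4 ≤ N := by
      have := Nat.lt_floor_add_one (T ^ 4)
      have h8 : (1 : ℝ) ≤ N := by exact_mod_cast hN1
      linarith
    rw [Real.rpow_neg hN0.le, ← Real.sqrt_eq_rpow, ← one_div, div_le_div_iff₀ (Real.sqrt_pos.mpr hN0)
      (by positivity), one_mul]
    have h2 : T ^ 2 / 2 ≤ √(N : ℝ) := by
      apply Real.le_sqrt_of_sq_le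
      calc (T ^ 2 / 2) ^ 2 = T ^ 4 / 4 := by ring
        _ ≤ (N : ℝ) := h1
    linarith
  have b2 : 2 * (N : ℝ) ^ (-(1 / 2) : ℝ) * ((∫ u : ℝ, ‖KL Q (Real.log T) u‖ * (1 + |t - u|)) +
      (1 + |t|)) ≤ 12 * (M3 Q + 1) * X := by
    have h1 : (∫ u : ℝ, ‖KL Q (Real.log T) u‖ * (1 + |t - u|)) + (1 + |t|) ≤
        (M3 Q + 1) * (3 * T) := by
      rw [habs] at a5 ⊢
      have : (M3 Q + 1) * (1 + t) ≤ (M3 Q + 1) * (3 * T) :=
        mul_le_mul_of_nonneg_left (by linarith) (by linarith)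
      linarith
    have h0 : 0 ≤ (∫ u : ℝ, ‖KL Q (Real.log T) u‖ * (1 + |t - u|)) + (1 + |t|) := by
      have : 0 ≤ ∫ u : ℝ, ‖KL Q (Real.log T) u‖ * (1 + |t - u|) :=
        integral_nonneg fun u => by positivity
      positivity
    calc 2 * (N : ℝ) ^ (-(1 / 2) : ℝ) * ((∫ u : ℝ, ‖KL Q (Real.log T) u‖ * (1 + |t - u|)) +
          (1 + |t|)) ≤ 2 * (2 / T ^ 2) * ((M3 Q + 1) * (3 * T)) := by gcongr
      _ = 12 * (M3 Q + 1) * (1 / T) := by field_simp; ring
      _ ≤ 12 * (M3 Q + 1) * X := mul_le_mul_of_nonneg_left hinvT (by positivity)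
  have b3 : 2 * (3 : ℝ) * Real.exp (-(3 * Real.log T / 2)) ≤ 6 * X := by
    have h1 : Real.exp (-(3 * Real.log T / 2)) ≤ X := by
      rw [hX, Real.rpow_def_of_pos hT0]
      apply Real.exp_le_exp.mpr
      linarith
    linarith
  -- pole terms
  have b4 : 2 * D * Real.exp (21 / 40 * Real.log T / 2) / t ≤ 2 * D * X := by
    have h1 : Real.exp (21 / 40 * Real.log T / 2) ≤ √T := by
      rw [Real.sqrt_eq_rpow, Real.rpow_def_of_pos hT0]
      apply Real.exp_le_exp.mpr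
      linarith
    have h2 : Real.exp (21 / 40 * Real.log T / 2) / t ≤ X := by
      rw [div_le_iff₀ ht0, hXs, one_div, inv_mul_eq_div, le_div_iff₀ (by linarith)]
      nlinarith [Real.exp_pos (21 / 40 * Real.log T / 2)]
    rw [mul_div_assoc]
    exact mul_le_mul_of_nonneg_left h2 (by positivity)
  -- dual error
  have b5 : 104 * (1 + |t|) ^ (1 / 2 : ℝ) / t * M3 (qa d hd) ≤ 208 * M3 (qa d hd) * X := by
    have h1 : (1 + |t|) ^ (1 / 2 : ℝ) ≤ 2 * √T := by
      rw [habs, ← Real.sqrt_eq_rpow]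
      apply Real.sqrt_le_iff.mpr
      refine ⟨by positivity, ?_⟩
      nlinarith
    have h2 : (1 + |t|) ^ (1 / 2 : ℝ) / t ≤ 2 * X := by
      rw [div_le_iff₀ ht0, hXs]
      have : 2 * (1 / √T) * t = 2 * t / √T := by ring
      rw [this, le_div_iff₀ (by linarith)]
      nlinarith
    calc 104 * (1 + |t|) ^ (1 / 2 : ℝ) / t * M3 (qa d hd) =
          104 * ((1 + |t|) ^ (1 / 2 : ℝ) / t) * M3 (qa d hd) := by ring
      _ ≤ 104 * (2 * X) * M3 (qa d hd) := by gcongr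
      _ = _ := by ring
  -- assembly
  set B₀ := ∑ n ∈ Finset.Icc 1 ⌊T⌋₊, kc d (Real.log n / Real.log T) * (n : ℂ) ^ (-hl t)
  set Bw := ∑ n ∈ Finset.Icc 1 ⌊T⌋₊, kc d (Real.log n / Real.log T - w) * (n : ℂ) ^ (-hl t)
  set P₀ := ∫ y : ℝ, qa d hd (y / Real.log T) * cexp (y * (1 - hl t))
  set Pw := ∫ y : ℝ, qs d hd w (y / Real.log T) * cexp (y * (1 - hl t))
  rw [a2] at a1
  rw [a3] at a4
  have e : riemannZeta (hl t) - B₀ - chi t * conj Bw =
      -(B₀ - P₀ + CZ (qb d hd) (Real.log T) t - riemannZeta (hl t)) +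
        (CZ (qb d hd) (Real.log T) t - chi t * conj (Bw - Pw)) - P₀ - chi t * conj Pw := by
    rw [map_sub]
    ring
  rw [e]
  have n1 : ‖chi t * conj Pw‖ ≤ 2 * D * X := by
    rw [norm_mul, Pool.Agent.Helper44.HL.norm_chi, one_mul, RCLike.norm_conj]
    exact p2.trans b4
  have n2 : ‖P₀‖ ≤ 2 * D * X := p3.trans b4
  have n3 := a1.trans b5
  have n4 := a4.trans (add_le_add b2 b3)
  calc ‖-(B₀ - P₀ + CZ (qb d hd) (Real.log T) t - riemannZeta (hl t)) +
        (CZ (qb d hd) (Real.log T) t - chi t * conj (Bw - Pw)) - P₀ - chi t * conj Pw‖ ≤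
        ‖B₀ - P₀ + CZ (qb d hd) (Real.log T) t - riemannZeta (hl t)‖ +
          ‖CZ (qb d hd) (Real.log T) t - chi t * conj (Bw - Pw)‖ + ‖P₀‖ + ‖chi t * conj Pw‖ := by
        refine (norm_sub_le _ _).trans (add_le_add ((norm_sub_le _ _).trans (add_le_add
          ((norm_add_le _ _).trans (le_of_eq ?_)) le_rfl)) le_rfl)
        rw [norm_neg]
    _ ≤ (12 * (M3 Q + 1) * X + 6 * X) + 208 * M3 (qa d hd) * X + 2 * D * X + 2 * D * X := by
        gcongr
    _ = _ := by ring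

end

end Pool.Agent.HL9
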