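import Pool.Agent.Helper9.HL.Gro
import Pool.Agent.Helper44.HL.Chi

/-!
# The dual sum
-/

set_option autoImplicit false

namespace Pool.Agent.HL9

open Complex Set MeasureTheory Filter Topology
open scoped FourierTransform SchwartzMap ComplexConjugate
open Pool.Agent.Helper44.HL (chi)

noncomputable section

lemma Kq_dual (q₁ q₂ : 𝓢(ℝ, ℂ)) (h : ∀ a, q₂ a = conj (q₁ (1 - a))) (x : ℝ) :
    Kq q₂ x = cexp (-(I * x)) * conj (Kq q₁ x) := by
  rw [Kq_eq, Kq_eq, map_mul, conj_ofReal, ← integral_conj]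
  have h1 : ∫ y : ℝ, cexp (-(I * x * y)) * q₂ y =
      ∫ y : ℝ, cexp (-(I * x * ((1 - y : ℝ) : ℂ))) * q₂ (1 - y) :=
    (integral_sub_left_eq_self (fun y : ℝ => cexp (-(I * x * y)) * q₂ y) volume 1).symm
  have h2 : ∫ y : ℝ, cexp (-(I * x * ((1 - y : ℝ) : ℂ))) * q₂ (1 - y) =
      cexp (-(I * x)) * ∫ y : ℝ, conj (cexp (-(I * x * y)) * q₁ y) := by
    rw [← integral_const_mul]
    apply integral_congr_ae
    filter_upwards with y
    rw [h, sub_sub_cancel, map_mul, ← Complex.exp_conj, ← mul_assoc, ← Complex.exp_add]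
    congr 2
    simp only [map_neg, map_mul, conj_I, conj_ofReal]
    push_cast
    ring
  rw [h1, h2, mul_left_comm]

lemma Kq_shift (q₁ q₃ : 𝓢(ℝ, ℂ)) (w : ℝ) (h : ∀ a, q₃ a = q₁ (a - w)) (x : ℝ) :
    Kq q₃ x = cexp (-(I * x * w)) * Kq q₁ x := by
  rw [Kq_eq, Kq_eq]
  have h1 : ∫ y : ℝ, cexp (-(I * x * y)) * q₃ y =
      ∫ y : ℝ, cexp (-(I * x * ((y + w : ℝ) : ℂ))) * q₃ (y + w) :=
    (integral_add_right_eq_self (fun y : ℝ => cexp (-(I * x * y)) * q₃ y) w).symm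
  have h2 : ∫ y : ℝ, cexp (-(I * x * ((y + w : ℝ) : ℂ))) * q₃ (y + w) =
      cexp (-(I * x * w)) * ∫ y : ℝ, cexp (-(I * x * y)) * q₁ y := by
    rw [← integral_const_mul]
    apply integral_congr_ae
    filter_upwards with y
    rw [h, add_sub_cancel_right, ← mul_assoc, ← Complex.exp_add]
    congr 2
    push_cast
    ring
  rw [h1, h2, mul_left_comm]

lemma KL_dual (q₁ q₂ : 𝓢(ℝ, ℂ)) (h : ∀ a, q₂ a = conj (q₁ (1 - a))) (L u : ℝ) :
    KL q₂ L u = cexp (-(I * (L * u))) * conj (KL q₁ L u) := by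
  unfold KL
  rw [Kq_dual q₁ q₂ h, map_mul, conj_ofReal]
  push_cast
  ring

lemma KL_shift (q₁ q₃ : 𝓢(ℝ, ℂ)) (w : ℝ) (h : ∀ a, q₃ a = q₁ (a - w)) (L u : ℝ) :
    KL q₃ L u = cexp (-(I * (L * u * w))) * KL q₁ L u := by
  unfold KL
  rw [Kq_shift q₁ q₃ w h]
  have e : -(I * ((L * u : ℝ) : ℂ) * (w : ℂ)) = -(I * (L * u * w)) := by push_cast; ring
  rw [e]
  ring

lemma Kq_add (q₁ q₂ : 𝓢(ℝ, ℂ)) (x : ℝ) : Kq (q₁ + q₂) x = Kq q₁ x + Kq q₂ x := by
  unfold Kq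
  have h : 𝓕 (q₁ + q₂) = 𝓕 q₁ + 𝓕 q₂ := FourierTransform.fourier_add q₁ q₂
  rw [h, SchwartzMap.add_apply, mul_add]

lemma KL_add (q₁ q₂ : 𝓢(ℝ, ℂ)) (L u : ℝ) : KL (q₁ + q₂) L u = KL q₁ L u + KL q₂ L u := by
  unfold KL
  rw [Kq_add, mul_add]

lemma integrable_KL_growth (q : 𝓢(ℝ, ℂ)) {L : ℝ} (hL : 0 < L) :
    Integrable fun u : ℝ => ‖KL q L u‖ * (1 + |u|) := by
  have h0 := integrable_pow_mul_KL q hL 0
  have h1 := integrable_pow_mul_KL q hL 1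
  simp only [pow_zero, one_mul, pow_one] at h0 h1
  refine (h0.add h1).congr (Eventually.of_forall fun u => ?_)
  change ‖KL q L u‖ + |u| * ‖KL q L u‖ = ‖KL q L u‖ * (1 + |u|)
  ring

lemma integrable_KL_zeta (q : 𝓢(ℝ, ℂ)) {L : ℝ} (hL : 0 < L) (t : ℝ) :
    Integrable fun u : ℝ => KL q L u * riemannZeta (hl (t - u)) := by
  have h := (integrable_KL_growth q hL).const_mul (8 * (1 + |t|) ^ (1 / 2 : ℝ))
  refine h.mono' (((continuous_KL q L).mul (continuous_zeta_hl.comp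
    (continuous_const.sub continuous_id))).aestronglyMeasurable) (Eventually.of_forall fun u => ?_)
  rw [norm_mul]
  calc ‖KL q L u‖ * ‖riemannZeta (hl (t - u))‖ ≤
        ‖KL q L u‖ * (8 * (1 + |t|) ^ (1 / 2 : ℝ) * (1 + |u|)) :=
        mul_le_mul_of_nonneg_left (norm_zeta_hl_sub_le t u) (norm_nonneg _)
    _ = _ := by ring

lemma CZ_add (q₁ q₂ : 𝓢(ℝ, ℂ)) {L : ℝ} (hL : 0 < L) (t : ℝ) :
    CZ (q₁ + q₂) L t = CZ q₁ L t + CZ q₂ L t := by
  unfold CZ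
  rw [← integral_add (integrable_KL_zeta q₁ hL t) (integrable_KL_zeta q₂ hL t)]
  apply integral_congr_ae
  filter_upwards with u
  rw [KL_add]
  ring

lemma integrable_KL_cubic (q : 𝓢(ℝ, ℂ)) {L : ℝ} (hL : 0 < L) :
    Integrable fun u : ℝ => ‖KL q L u‖ * ((1 + |u|) * (1 + u ^ 2)) := by
  have h0 := integrable_pow_mul_KL q hL 0
  have h1 := integrable_pow_mul_KL q hL 1
  have h2 := integrable_pow_mul_KL q hL 2
  have h3 := integrable_pow_mul_KL q hL 3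
  refine (((h0.add h1).add h2).add h3).congr (Eventually.of_forall fun u => ?_)
  change |u| ^ 0 * ‖KL q L u‖ + |u| ^ 1 * ‖KL q L u‖ + |u| ^ 2 * ‖KL q L u‖ + |u| ^ 3 * ‖KL q L u‖ =
    ‖KL q L u‖ * ((1 + |u|) * (1 + u ^ 2))
  rw [← sq_abs u]
  ring

/-- the moments of order `≤ 3` -/
def M3 (q : 𝓢(ℝ, ℂ)) : ℝ := (∫ x : ℝ, |x| ^ 0 * ‖Kq q x‖) + (∫ x : ℝ, |x| ^ 1 * ‖Kq q x‖) +
  (∫ x : ℝ, |x| ^ 2 * ‖Kq q x‖) + ∫ x : ℝ, |x| ^ 3 * ‖Kq q x‖

lemma mom_nonneg (q : 𝓢(ℝ, ℂ)) (k : ℕ) : 0 ≤ ∫ x : ℝ, |x| ^ k * ‖Kq q x‖ :=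
  integral_nonneg fun x => by positivity

lemma M3_nonneg (q : 𝓢(ℝ, ℂ)) : 0 ≤ M3 q := by
  unfold M3
  have := mom_nonneg q 0
  have := mom_nonneg q 1
  have := mom_nonneg q 2
  have := mom_nonneg q 3
  linarith

lemma moment_KL_le (q : 𝓢(ℝ, ℂ)) {L : ℝ} (hL : 1 ≤ L) (k : ℕ) :
    ∫ u : ℝ, |u| ^ k * ‖KL q L u‖ ≤ ∫ x : ℝ, |x| ^ k * ‖Kq q x‖ := by
  rw [moment_KL q (by linarith) k]
  have h1 : (L ^ k)⁻¹ ≤ 1 := inv_le_one_of_one_le₀ (one_le_pow₀ hL)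
  calc (L ^ k)⁻¹ * ∫ x : ℝ, |x| ^ k * ‖Kq q x‖ ≤ 1 * ∫ x : ℝ, |x| ^ k * ‖Kq q x‖ :=
        mul_le_mul_of_nonneg_right h1 (mom_nonneg q k)
    _ = _ := one_mul _

lemma integral_KL_cubic_le (q : 𝓢(ℝ, ℂ)) {L : ℝ} (hL : 1 ≤ L) :
    ∫ u : ℝ, ‖KL q L u‖ * ((1 + |u|) * (1 + u ^ 2)) ≤ M3 q := by
  have hL0 : 0 < L := by linarith
  have h0 := integrable_pow_mul_KL q hL0 0
  have h1 := integrable_pow_mul_KL q hL0 1
  have h2 := integrable_pow_mul_KL q hL0 2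
  have h3 := integrable_pow_mul_KL q hL0 3
  have e : ∫ u : ℝ, ‖KL q L u‖ * ((1 + |u|) * (1 + u ^ 2)) =
      (∫ u : ℝ, |u| ^ 0 * ‖KL q L u‖) + (∫ u : ℝ, |u| ^ 1 * ‖KL q L u‖) +
        (∫ u : ℝ, |u| ^ 2 * ‖KL q L u‖) + ∫ u : ℝ, |u| ^ 3 * ‖KL q L u‖ := by
    have i1 : Integrable fun u : ℝ => |u| ^ 0 * ‖KL q L u‖ + |u| ^ 1 * ‖KL q L u‖ := h0.add h1
    have i2 : Integrable fun u : ℝ => |u| ^ 0 * ‖KL q L u‖ + |u| ^ 1 * ‖KL q L u‖ +
      |u| ^ 2 * ‖KL q L u‖ := i1.add h2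
    rw [← integral_add h0 h1, ← integral_add i1 h2, ← integral_add i2 h3]
    apply integral_congr_ae
    filter_upwards with u
    rw [← sq_abs u]
    ring
  rw [e]
  unfold M3
  have := moment_KL_le q hL 0
  have := moment_KL_le q hL 1
  have := moment_KL_le q hL 2
  have := moment_KL_le q hL 3
  linarith

lemma integral_KL_mul_le (q : 𝓢(ℝ, ℂ)) {L : ℝ} (hL : 1 ≤ L) (t : ℝ) :
    ∫ u : ℝ, ‖KL q L u‖ * (1 + |t - u|) ≤ M3 q * (1 + |t|) := by
  have hL0 : 0 < L := by linarith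
  have h0 := integrable_pow_mul_KL q hL0 0
  have h1 := integrable_pow_mul_KL q hL0 1
  have h2 : ∫ u : ℝ, ‖KL q L u‖ * (1 + |t - u|) ≤
      ∫ u : ℝ, ((1 + |t|) * (|u| ^ 0 * ‖KL q L u‖) + |u| ^ 1 * ‖KL q L u‖) := by
    apply integral_mono (integrable_KL_mul q hL0 t) ((h0.const_mul _).add h1)
    intro u
    change ‖KL q L u‖ * (1 + |t - u|) ≤ (1 + |t|) * (|u| ^ 0 * ‖KL q L u‖) + |u| ^ 1 * ‖KL q L u‖
    have h3 : |t - u| ≤ |t| + |u| := abs_sub _ _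
    rw [pow_zero, one_mul, pow_one]
    nlinarith [norm_nonneg (KL q L u)]
  rw [integral_add (h0.const_mul _) h1, integral_const_mul] at h2
  refine h2.trans ?_
  have a0 := moment_KL_le q hL 0
  have a1 := moment_KL_le q hL 1
  have b2 := mom_nonneg q 2
  have b3 := mom_nonneg q 3
  have b1 := mom_nonneg q 1
  have ht := abs_nonneg t
  unfold M3
  nlinarith [mul_le_mul_of_nonneg_left a0 (show 0 ≤ 1 + |t| by positivity),
    mul_nonneg b1 ht, mul_nonneg b2 (show 0 ≤ 1 + |t| by positivity),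
    mul_nonneg b3 (show 0 ≤ 1 + |t| by positivity)]

/-- **(C)** The dual sum. -/
theorem conv_dual (q₁ q₂ q₃ : 𝓢(ℝ, ℂ)) {L t w : ℝ} (hL : 1 ≤ L) (ht : 0 < t)
    (hw : L * w = Real.log (t / (2 * Real.pi)) - L)
    (h2 : ∀ a, q₂ a = conj (q₁ (1 - a))) (h3 : ∀ a, q₃ a = q₁ (a - w)) :
    ‖CZ q₂ L t - chi t * conj (CZ q₃ L t)‖ ≤ 104 * (1 + |t|) ^ (1 / 2 : ℝ) / t * M3 q₁ := by
  have hL0 : 0 < L := by linarith
  have e1 : chi t * conj (CZ q₃ L t) =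
      ∫ u : ℝ, chi t * conj (KL q₃ L u * riemannZeta (hl (t - u))) := by
    unfold CZ
    rw [← integral_conj, ← integral_const_mul]
  have hi3 : Integrable fun u : ℝ => chi t * conj (KL q₃ L u * riemannZeta (hl (t - u))) := by
    have := (integrable_KL_zeta q₃ hL0 t)
    have h4 := (Complex.conjCLE.toContinuousLinearMap.integrable_comp this).const_mul (chi t)
    exact h4
  rw [e1]
  unfold CZ
  rw [← integral_sub (integrable_KL_zeta q₂ hL0 t) hi3]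
  have hb : ∀ u : ℝ, ‖KL q₂ L u * riemannZeta (hl (t - u)) -
      chi t * conj (KL q₃ L u * riemannZeta (hl (t - u)))‖ ≤
      104 * (1 + |t|) ^ (1 / 2 : ℝ) / t * (‖KL q₁ L u‖ * ((1 + |u|) * (1 + u ^ 2))) := by
    intro u
    have hfe : riemannZeta (hl (t - u)) = chi (t - u) * conj (riemannZeta (hl (t - u))) := by
      have := Pool.Agent.Helper44.HL.zeta_eq (t - u)
      exact this
    have e2 : KL q₂ L u * riemannZeta (hl (t - u)) -
        chi t * conj (KL q₃ L u * riemannZeta (hl (t - u))) =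
        cexp (-(I * (L * u))) * conj (KL q₁ L u) * conj (riemannZeta (hl (t - u))) *
          (chi (t - u) - chi t * cexp (I * (u * Real.log (t / (2 * Real.pi))))) := by
      have e3 : conj (cexp (-(I * (L * u * w)))) =
          cexp (-(I * (L * u))) * cexp (I * (u * Real.log (t / (2 * Real.pi)))) := by
        rw [← Complex.exp_conj, ← Complex.exp_add]
        congr 1
        simp only [map_neg, map_mul, conj_I, conj_ofReal]
        have e4 : ((Real.log (t / (2 * Real.pi)) : ℝ) : ℂ) = L * w + L := by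
          rw [← ofReal_mul, ← ofReal_add]
          congr 1
          linarith
        rw [e4]
        ring
      rw [KL_dual q₁ q₂ h2, KL_shift q₁ q₃ w h3]
      simp only [map_mul]
      rw [e3]
      linear_combination (cexp (-(I * (L * u))) * conj (KL q₁ L u)) * hfe
    rw [e2, norm_mul, norm_mul, norm_mul, RCLike.norm_conj, RCLike.norm_conj]
    have e5 : ‖cexp (-(I * (L * u)))‖ = 1 := by
      have : -(I * (L * u) : ℂ) = ((-(L * u) : ℝ) : ℂ) * I := by push_cast; ring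
      rw [this, Complex.norm_exp_ofReal_mul_I]
    rw [e5, one_mul]
    have h5 := Pool.Agent.Helper44.HL.chi_local ht u
    have h6 := norm_zeta_hl_sub_le t u
    calc ‖KL q₁ L u‖ * ‖riemannZeta (hl (t - u))‖ *
          ‖chi (t - u) - chi t * cexp (I * (u * Real.log (t / (2 * Real.pi))))‖ ≤
          ‖KL q₁ L u‖ * (8 * (1 + |t|) ^ (1 / 2 : ℝ) * (1 + |u|)) * (13 * (1 + u ^ 2) / t) := by
          gcongr
      _ = _ := by field_simp; ring
  have hg := (integrable_KL_cubic q₁ hL0).const_mul (104 * (1 + |t|) ^ (1 / 2 : ℝ) / t)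
  refine (norm_integral_le_of_norm_le hg (Eventually.of_forall hb)).trans ?_
  rw [integral_const_mul]
  exact mul_le_mul_of_nonneg_left (integral_KL_cubic_le q₁ hL) (by positivity)

end

end Pool.Agent.HL9
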