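import Pool.Agent.Helper9.HL.Conv

/-!
# Growth of zeta on the critical line, and the pole term
-/

set_option autoImplicit false

namespace Pool.Agent.HL9

open Complex Set MeasureTheory Filter Topology
open scoped FourierTransform SchwartzMap

noncomputable section

lemma sum_rpow_neg_half_le (N : ℕ) :
    ∑ n ∈ Finset.Icc 1 N, (n : ℝ) ^ (-(1 / 2) : ℝ) ≤ 2 * (N : ℝ) ^ (1 / 2 : ℝ) := by
  induction N with
  | zero => simp
  | succ N ih =>
    rw [Finset.sum_Icc_succ_top (by omega)]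
    have h0 : (0 : ℝ) ≤ N := Nat.cast_nonneg N
    have h1 : (0 : ℝ) < (N : ℝ) + 1 := by positivity
    rw [Nat.cast_succ]
    have e1 : ((N : ℝ) + 1) ^ (-(1 / 2) : ℝ) = 1 / √((N : ℝ) + 1) := by
      rw [Real.rpow_neg h1.le, ← Real.sqrt_eq_rpow, one_div]
    have e2 : ((N : ℝ) + 1) ^ (1 / 2 : ℝ) = √((N : ℝ) + 1) := (Real.sqrt_eq_rpow _).symm
    have e3 : (N : ℝ) ^ (1 / 2 : ℝ) = √(N : ℝ) := (Real.sqrt_eq_rpow _).symm
    rw [e1, e2]
    rw [e3] at ih
    have h2 : 0 < √((N : ℝ) + 1) := Real.sqrt_pos.mpr h1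
    have h3 := Real.sq_sqrt h1.le
    have h4 := Real.sq_sqrt h0
    have h5 : 0 ≤ √(N : ℝ) := Real.sqrt_nonneg _
    have h6 : 1 / √((N : ℝ) + 1) ≤ 2 * √((N : ℝ) + 1) - 2 * √(N : ℝ) := by
      rw [div_le_iff₀ h2]
      nlinarith [sq_nonneg (√((N : ℝ) + 1) - √(N : ℝ))]
    linarith

/-- growth of zeta on the critical line -/
theorem norm_zeta_hl_le (t : ℝ) : ‖riemannZeta (hl t)‖ ≤ 8 * (1 + |t|) ^ (1 / 2 : ℝ) := by
  set N : ℕ := ⌈1 + |t|⌉₊ with hNdef
  have ht0 : 0 ≤ |t| := abs_nonneg t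
  have hN1 : 1 + |t| ≤ N := Nat.le_ceil _
  have hN2 : (N : ℝ) < 1 + |t| + 1 := Nat.ceil_lt_add_one (by positivity)
  have hN : 1 ≤ N := by
    have : (1 : ℝ) ≤ N := by linarith
    exact_mod_cast this
  have hN0 : (0 : ℝ) < N := by exact_mod_cast hN
  have e3 : riemannZeta (hl t) = ∑ n ∈ Finset.Icc 1 N, (n : ℂ) ^ (-hl t) - PN N t + EN N t := by
    unfold EN PN; ring
  have h1 : ‖∑ n ∈ Finset.Icc 1 N, (n : ℂ) ^ (-hl t)‖ ≤ 2 * (N : ℝ) ^ (1 / 2 : ℝ) := by
    refine (norm_sum_le _ _).trans (le_trans (le_of_eq ?_) (sum_rpow_neg_half_le N))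
    exact Finset.sum_congr rfl fun n hn => norm_cpow_hl (Finset.mem_Icc.mp hn).1 t
  have h2 := norm_PN_le hN t
  have h3 := norm_EN_le hN t
  have e1 : (N : ℝ) ^ (1 / 2 : ℝ) = √(N : ℝ) := (Real.sqrt_eq_rpow _).symm
  have e2 : (N : ℝ) ^ (-(1 / 2) : ℝ) = 1 / √(N : ℝ) := by
    rw [Real.rpow_neg hN0.le, ← Real.sqrt_eq_rpow, one_div]
  have e4 : (1 + |t|) ^ (1 / 2 : ℝ) = √(1 + |t|) := (Real.sqrt_eq_rpow _).symm
  have h5 : 0 < √(N : ℝ) := Real.sqrt_pos.mpr hN0
  have h6 := Real.sq_sqrt hN0.le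
  have h7 := Real.sq_sqrt (show (0 : ℝ) ≤ 1 + |t| by positivity)
  have h8 : 0 < √(1 + |t|) := Real.sqrt_pos.mpr (by positivity)
  have h9 : √(N : ℝ) ≤ 3 / 2 * √(1 + |t|) := by
    apply Real.sqrt_le_iff.mpr
    refine ⟨by positivity, ?_⟩
    nlinarith
  have h10 : (1 + |t|) * (1 / √(N : ℝ)) ≤ √(1 + |t|) := by
    rw [mul_one_div, div_le_iff₀ h5]
    have : √(1 + |t|) ≤ √(N : ℝ) := Real.sqrt_le_sqrt hN1
    nlinarith
  rw [e1] at h1 h2
  rw [e2] at h3
  rw [e3, e4]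
  have h11 : ‖∑ n ∈ Finset.Icc 1 N, (n : ℂ) ^ (-hl t) - PN N t + EN N t‖ ≤
      2 * √(N : ℝ) + 2 * √(N : ℝ) + 2 * (1 + |t|) * (1 / √(N : ℝ)) :=
    (norm_add_le _ _).trans (add_le_add ((norm_sub_le _ _).trans (add_le_add h1 h2)) h3)
  nlinarith

/-- growth, translated -/
theorem norm_zeta_hl_sub_le (t u : ℝ) :
    ‖riemannZeta (hl (t - u))‖ ≤ 8 * (1 + |t|) ^ (1 / 2 : ℝ) * (1 + |u|) := by
  refine (norm_zeta_hl_le (t - u)).trans ?_
  have h1 : (1 + |t - u|) ≤ (1 + |t|) * (1 + |u|) := by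
    have h3 : |t - u| ≤ |t| + |u| := abs_sub _ _
    nlinarith [abs_nonneg t, abs_nonneg u, mul_nonneg (abs_nonneg t) (abs_nonneg u)]
  have h2 : (1 + |t - u|) ^ (1 / 2 : ℝ) ≤ (1 + |t|) ^ (1 / 2 : ℝ) * (1 + |u|) ^ (1 / 2 : ℝ) := by
    rw [← Real.mul_rpow (by positivity) (by positivity)]
    exact Real.rpow_le_rpow (by positivity) h1 (by norm_num)
  have h3 : (1 + |u|) ^ (1 / 2 : ℝ) ≤ 1 + |u| := by
    calc (1 + |u|) ^ (1 / 2 : ℝ) ≤ (1 + |u|) ^ (1 : ℝ) :=
          Real.rpow_le_rpow_of_exponent_le (by linarith [abs_nonneg u]) (by norm_num)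
      _ = 1 + |u| := Real.rpow_one _
  have h4 : (0 : ℝ) ≤ (1 + |t|) ^ (1 / 2 : ℝ) := by positivity
  nlinarith [mul_le_mul_of_nonneg_left h3 h4]

/-- the integrand of the pole term -/
lemma hasDerivAt_exp_mul (a : ℂ) (y : ℝ) :
    HasDerivAt (fun y : ℝ => cexp (y * a)) (a * cexp (y * a)) y := by
  have h1 : HasDerivAt (fun y : ℝ => (y : ℂ) * a) a y := by
    simpa using (Complex.ofRealCLM.hasDerivAt (x := y)).mul_const a
  have h2 := h1.cexp
  rw [mul_comm] at h2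
  exact h2

/-- **The pole term is small.** `q : ℝ → ℂ` is `C¹` with compact support in `(-∞, R]`. -/
theorem pole_small {q q' : ℝ → ℂ} (hq : ∀ v, HasDerivAt q (q' v) v) (hq'c : Continuous q')
    (hs : HasCompactSupport q) (hs' : HasCompactSupport q') {R D : ℝ}
    (hR : ∀ v, R < v → q' v = 0) (hD : ∀ v, ‖q' v‖ ≤ D) {L : ℝ} (hL : 1 ≤ L) {t : ℝ} (ht : 0 < t) :
    ‖∫ y : ℝ, q (y / L) * cexp (y * (1 - hl t))‖ ≤ 2 * D * Real.exp (R * L / 2) / t := by
  have hL0 : 0 < L := by linarith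
  have hLne : L ≠ 0 := hL0.ne'
  have hD0 : 0 ≤ D := (norm_nonneg _).trans (hD 0)
  set a : ℂ := 1 - hl t with ha
  have hane : a ≠ 0 := one_sub_hl_ne t
  have hqc : Continuous q := continuous_iff_continuousAt.mpr fun v => (hq v).continuousAt
  have hexpc : Continuous fun y : ℝ => cexp (y * a) :=
    Complex.continuous_exp.comp (Complex.continuous_ofReal.mul continuous_const)
  have hd : ∀ y : ℝ, HasDerivAt (fun y : ℝ => q (y / L)) (q' (y / L) * (1 / L : ℝ)) y := by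
    intro y
    have h1 : HasDerivAt (fun y : ℝ => y / L) (1 / L) y := (hasDerivAt_id y).div_const L
    have h2 := (hq (y / L)).scomp y h1
    rw [real_smul, mul_comm] at h2
    exact h2
  have hcs : ∀ g : ℝ → ℂ, HasCompactSupport g → HasCompactSupport fun y : ℝ => g (y / L) := by
    intro g hg
    have := hg.comp_homeomorph (Homeomorph.mulRight₀ L⁻¹ (inv_ne_zero hLne))
    exact this
  have hi1 : Integrable fun y : ℝ => q (y / L) * (a * cexp (y * a)) := by
    apply Continuous.integrable_of_hasCompactSupport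
    · exact (hqc.comp (continuous_id.div_const _)).mul (continuous_const.mul hexpc)
    · exact (hcs q hs).mul_right
  have hi2 : Integrable fun y : ℝ => q' (y / L) * (1 / L : ℝ) * cexp (y * a) := by
    apply Continuous.integrable_of_hasCompactSupport
    · exact ((hq'c.comp (continuous_id.div_const _)).mul continuous_const).mul hexpc
    · exact ((hcs q' hs').mul_right).mul_right
  have hi3 : Integrable fun y : ℝ => q (y / L) * cexp (y * a) := by
    apply Continuous.integrable_of_hasCompactSupport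
    · exact (hqc.comp (continuous_id.div_const _)).mul hexpc
    · exact (hcs q hs).mul_right
  have key := integral_mul_deriv_eq_deriv_mul_of_integrable (u := fun y : ℝ => q (y / L))
    (v := fun y : ℝ => cexp (y * a)) (fun y _ => hd y) (fun y _ => hasDerivAt_exp_mul a y) hi1 hi2 hi3
  have e1 : ∫ y : ℝ, q (y / L) * (a * cexp (y * a)) = a * ∫ y : ℝ, q (y / L) * cexp (y * a) := by
    rw [← integral_const_mul]
    apply integral_congr_ae
    filter_upwards with y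
    ring
  rw [e1] at key
  have h7 : ∀ y : ℝ, ‖cexp (y * a)‖ = Real.exp (1 / 2 * y) := by
    intro y
    rw [Complex.norm_exp]
    congr 1
    rw [re_ofReal_mul, ha, one_sub_hl_re]
    ring
  have h8 : ‖∫ y : ℝ, q' (y / L) * (1 / L : ℝ) * cexp (y * a)‖ ≤ 2 * D * Real.exp (R * L / 2) := by
    have e2 : ∫ y : ℝ, q' (y / L) * (1 / L : ℝ) * cexp (y * a) =
        ∫ y in Iic (R * L), q' (y / L) * (1 / L : ℝ) * cexp (y * a) := by
      symm
      apply setIntegral_eq_integral_of_forall_compl_eq_zero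
      intro y hy
      rw [mem_Iic, not_le] at hy
      rw [hR (y / L) (by rw [lt_div_iff₀ hL0]; exact hy), zero_mul, zero_mul]
    rw [e2]
    have hg : IntegrableOn (fun y : ℝ => D * Real.exp (1 / 2 * y)) (Iic (R * L)) :=
      (integrableOn_exp_mul_Iic (by norm_num) _).const_mul D
    refine (norm_integral_le_of_norm_le hg (Eventually.of_forall fun y => ?_)).trans (le_of_eq ?_)
    · rw [norm_mul, norm_mul, h7]
      apply mul_le_mul_of_nonneg_right _ (Real.exp_nonneg _)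
      have h9 : ‖((1 / L : ℝ) : ℂ)‖ ≤ 1 := by
        rw [norm_real, Real.norm_of_nonneg (by positivity), div_le_one hL0]
        exact hL
      calc ‖q' (y / L)‖ * ‖((1 / L : ℝ) : ℂ)‖ ≤ D * 1 :=
            mul_le_mul (hD _) h9 (norm_nonneg _) hD0
        _ = D := mul_one D
    · rw [integral_const_mul, integral_exp_mul_Iic (by norm_num)]
      rw [show 1 / 2 * (R * L) = R * L / 2 by ring]
      ring
  have h10 : t ≤ ‖a‖ := by
    have h := Complex.abs_im_le_norm a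
    have e : a.im = -t := by rw [ha, sub_im, one_im, hl_im]; ring
    rw [e, abs_neg, abs_of_pos ht] at h
    exact h
  rw [le_div_iff₀ ht]
  calc ‖∫ y : ℝ, q (y / L) * cexp (y * a)‖ * t ≤ ‖∫ y : ℝ, q (y / L) * cexp (y * a)‖ * ‖a‖ :=
        mul_le_mul_of_nonneg_left h10 (norm_nonneg _)
    _ = ‖a * ∫ y : ℝ, q (y / L) * cexp (y * a)‖ := by rw [norm_mul, mul_comm]
    _ = ‖∫ y : ℝ, q' (y / L) * (1 / L : ℝ) * cexp (y * a)‖ := by rw [key, norm_neg]
    _ ≤ _ := h8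

end

end Pool.Agent.HL9
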