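import Pool.Agent.Helper57.M.Z

/-!
# The zeta function on the critical line and partial sums
-/

set_option autoImplicit false

namespace Pool.Agent.HL9

open Complex Set MeasureTheory Filter Topology
open Pool.Agent.Helper57.LH

noncomputable section

/-- the remainder -/
def JN (N : ℕ) (s : ℂ) : ℂ :=
  ∫ t in Ioi (N : ℝ), ((Int.fract t : ℝ) : ℂ) * (t : ℂ) ^ (-(s + 1))

lemma integrableOn_JN {N : ℕ} (hN : 1 ≤ N) {s : ℂ} (hs : 0 < s.re) :
    IntegrableOn (fun t : ℝ => ((Int.fract t : ℝ) : ℂ) * (t : ℂ) ^ (-(s + 1))) (Ioi (N : ℝ)) :=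
  (integrableOn_fr hs).mono_set (Ioi_subset_Ioi (by exact_mod_cast hN))

lemma norm_JN_le {N : ℕ} (hN : 1 ≤ N) {s : ℂ} (hs : 0 < s.re) :
    ‖JN N s‖ ≤ (N : ℝ) ^ (-s.re) / s.re := by
  have hN0 : (0 : ℝ) < N := by exact_mod_cast hN
  have hN1 : (1 : ℝ) ≤ N := by exact_mod_cast hN
  unfold JN
  refine (norm_integral_le_of_norm_le (integrableOn_Ioi_rpow_of_lt (a := -(s.re + 1)) (by linarith)
    hN0) (by
    filter_upwards [ae_restrict_mem measurableSet_Ioi] with t ht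
    exact norm_fr s (lt_of_le_of_lt hN1 ht))).trans ?_
  rw [integral_Ioi_rpow_of_lt (by linarith) hN0]
  rw [show -(s.re + 1) + 1 = -s.re by ring, neg_div_neg_eq]

lemma JN_succ {N : ℕ} (hN : 1 ≤ N) {s : ℂ} (hs : 0 < s.re) (h1 : s ≠ 1) :
    JN N s = JN (N + 1) s + ((((N + 1 : ℕ) : ℂ) ^ (1 - s) - (N : ℂ) ^ (1 - s)) / (1 - s) +
      N * ((((N + 1 : ℕ) : ℂ) ^ (-s) - (N : ℂ) ^ (-s)) / s)) := by
  have hN0 : (0 : ℝ) < N := by exact_mod_cast hN
  have hs0 : s ≠ 0 := by rintro rfl; simp at hs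
  have hle : (N : ℝ) ≤ ((N + 1 : ℕ) : ℝ) := by push_cast; linarith
  have hsplit : JN N s = (∫ t in Ioc (N : ℝ) ((N + 1 : ℕ) : ℝ),
      ((Int.fract t : ℝ) : ℂ) * (t : ℂ) ^ (-(s + 1))) + JN (N + 1) s := by
    unfold JN
    rw [← setIntegral_union (Ioc_disjoint_Ioi le_rfl) measurableSet_Ioi
      ((integrableOn_JN hN hs).mono_set Ioc_subset_Ioi_self)
      ((integrableOn_JN hN hs).mono_set (Ioi_subset_Ioi hle)), Ioc_union_Ioi_eq_Ioi hle]
  rw [hsplit, add_comm]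
  congr 1
  rw [← intervalIntegral.integral_of_le hle]
  have hmem : (0 : ℝ) ∉ uIcc (N : ℝ) ((N + 1 : ℕ) : ℝ) := by
    rw [uIcc_of_le hle]
    rintro ⟨h, -⟩
    linarith
  have e1 : ∫ t in (N : ℝ)..((N + 1 : ℕ) : ℝ), ((Int.fract t : ℝ) : ℂ) * (t : ℂ) ^ (-(s + 1)) =
      ∫ t in (N : ℝ)..((N + 1 : ℕ) : ℝ), ((t : ℂ) ^ (-s) - N * (t : ℂ) ^ (-s - 1)) := by
    rw [intervalIntegral.integral_of_le hle, intervalIntegral.integral_of_le hle]
    rw [integral_Ioc_eq_integral_Ioo, integral_Ioc_eq_integral_Ioo]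
    apply setIntegral_congr_fun measurableSet_Ioo
    intro t ht
    have ht0 : 0 < t := hN0.trans ht.1
    have hfl : ⌊t⌋ = (N : ℤ) := by
      rw [Int.floor_eq_iff]
      have h2 := ht.2
      push_cast at h2 ⊢
      exact ⟨ht.1.le, h2⟩
    have hfr : (Int.fract t : ℝ) = t - N := by
      unfold Int.fract
      rw [hfl]
      push_cast
      rfl
    have hsub : -s - 1 = -(s + 1) := by ring
    change ((Int.fract t : ℝ) : ℂ) * (t : ℂ) ^ (-(s + 1)) = (t : ℂ) ^ (-s) - N * (t : ℂ) ^ (-s - 1)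
    rw [hfr, hsub]
    push_cast
    have e : (t : ℂ) ^ (-s) = t * (t : ℂ) ^ (-(s + 1)) := by
      have ht' : (t : ℂ) ≠ 0 := by exact_mod_cast ht0.ne'
      rw [show -s = 1 + (-(s + 1)) by ring, Complex.cpow_add _ _ ht', Complex.cpow_one]
    rw [e]
    ring
  rw [e1, intervalIntegral.integral_sub, intervalIntegral.integral_const_mul, integral_cpow,
    integral_cpow]
  · rw [show -s + 1 = 1 - s by ring, show -s - 1 + 1 = -s by ring]
    have hs1 : (1 : ℂ) - s ≠ 0 := sub_ne_zero.mpr (Ne.symm h1)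
    push_cast
    field_simp
    ring
  · right
    refine ⟨?_, hmem⟩
    intro h
    apply hs0
    linear_combination -h
  · right
    refine ⟨?_, hmem⟩
    intro h
    apply h1
    linear_combination -h
  · apply ContinuousOn.intervalIntegrable
    intro t ht
    have ht0 : t ≠ 0 := fun h => hmem (h ▸ ht)
    exact (Complex.continuousAt_ofReal_cpow_const _ _ (Or.inr ht0)).continuousWithinAt
  · apply ContinuousOn.intervalIntegrable
    intro t ht
    have ht0 : t ≠ 0 := fun h => hmem (h ▸ ht)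
    exact ((Complex.continuousAt_ofReal_cpow_const _ _ (Or.inr ht0)).const_mul _).continuousWithinAt

/-- the zeta function and its partial sums -/
theorem zeta_eq_sum {s : ℂ} (hs : 0 < s.re) (h1 : s ≠ 1) {N : ℕ} (hN : 1 ≤ N) :
    riemannZeta s = ∑ n ∈ Finset.Icc 1 N, (n : ℂ) ^ (-s) - (N : ℂ) ^ (1 - s) / (1 - s) -
      s * JN N s := by
  have hs0 : s ≠ 0 := by rintro rfl; simp at hs
  have hs1 : (1 : ℂ) - s ≠ 0 := sub_ne_zero.mpr (Ne.symm h1)
  have hs1' : s - 1 ≠ 0 := sub_ne_zero.mpr h1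
  induction N, hN using Nat.le_induction with
  | base =>
    have h2 := Zt_eq hs h1
    rw [Zt_eq_J hs] at h2
    have h3 : JN 1 s = Jf1 s := by
      unfold JN Jf1
      rw [Nat.cast_one]
    rw [h3]
    have h4 : riemannZeta s = (s - s * (s - 1) * Jf1 s) / (s - 1) := by
      rw [h2, mul_div_cancel_left₀ _ hs1']
    rw [h4]
    simp only [Finset.Icc_self, Finset.sum_singleton, Nat.cast_one, Complex.one_cpow]
    field_simp
    ring
  | succ N hN ih =>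
    rw [ih, JN_succ hN hs h1, Finset.sum_Icc_succ_top (by omega)]
    have hN0 : ((N : ℂ)) ≠ 0 := by
      have : N ≠ 0 := by omega
      exact_mod_cast this
    have hN1 : (((N + 1 : ℕ) : ℂ)) ≠ 0 := by
      have : N + 1 ≠ 0 := by omega
      exact_mod_cast this
    have e1 : (N : ℂ) * (N : ℂ) ^ (-s) = (N : ℂ) ^ (1 - s) := by
      rw [show (1 : ℂ) - s = 1 + -s by ring, Complex.cpow_add _ _ hN0, Complex.cpow_one]
    have e2 : ((N + 1 : ℕ) : ℂ) * ((N + 1 : ℕ) : ℂ) ^ (-s) = ((N + 1 : ℕ) : ℂ) ^ (1 - s) := by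
      rw [show (1 : ℂ) - s = 1 + -s by ring, Complex.cpow_add _ _ hN1, Complex.cpow_one]
    have e3 : (N : ℂ) * ((N + 1 : ℕ) : ℂ) ^ (-s) = ((N + 1 : ℕ) : ℂ) ^ (1 - s) -
        ((N + 1 : ℕ) : ℂ) ^ (-s) := by
      rw [← e2]; push_cast; ring
    have e4 : (N : ℂ) * ((((N + 1 : ℕ) : ℂ) ^ (-s) - (N : ℂ) ^ (-s)) / s) =
        (((N + 1 : ℕ) : ℂ) ^ (1 - s) - ((N + 1 : ℕ) : ℂ) ^ (-s) - (N : ℂ) ^ (1 - s)) / s := by
      rw [mul_div_assoc', mul_sub, e1, e3]
    rw [e4]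
    generalize ((N + 1 : ℕ) : ℂ) ^ (1 - s) = A
    generalize ((N + 1 : ℕ) : ℂ) ^ (-s) = B
    generalize (N : ℂ) ^ (1 - s) = C
    field_simp
    ring

/-- the point `1/2 + i t` -/
def hl (t : ℝ) : ℂ := 1 / 2 + I * t

@[simp] lemma hl_re (t : ℝ) : (hl t).re = 1 / 2 := by simp [hl]

@[simp] lemma hl_im (t : ℝ) : (hl t).im = t := by simp [hl]

lemma hl_ne_one (t : ℝ) : hl t ≠ 1 := by
  intro h
  have := congrArg Complex.re h
  rw [hl_re, one_re] at this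
  norm_num at this

lemma norm_hl_le (t : ℝ) : ‖hl t‖ ≤ 1 / 2 + |t| := by
  unfold hl
  refine (norm_add_le _ _).trans ?_
  rw [norm_mul, norm_I, one_mul, norm_real, Real.norm_eq_abs]
  norm_num

/-- the error of the partial sum on the critical line -/
def EN (N : ℕ) (t : ℝ) : ℂ := riemannZeta (hl t) -
  (∑ n ∈ Finset.Icc 1 N, (n : ℂ) ^ (-hl t) - (N : ℂ) ^ (1 - hl t) / (1 - hl t))

theorem norm_EN_le {N : ℕ} (hN : 1 ≤ N) (t : ℝ) :
    ‖EN N t‖ ≤ 2 * (1 + |t|) * (N : ℝ) ^ (-(1 / 2) : ℝ) := by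
  have h := zeta_eq_sum (s := hl t) (by rw [hl_re]; norm_num) (hl_ne_one t) hN
  have h2 : EN N t = -(hl t * JN N (hl t)) := by
    unfold EN
    rw [h]
    ring
  rw [h2, norm_neg, norm_mul]
  have h3 := norm_JN_le hN (s := hl t) (by rw [hl_re]; norm_num)
  rw [hl_re] at h3
  have h4 := norm_hl_le t
  have h5 : (0 : ℝ) ≤ (N : ℝ) ^ (-(1 / 2) : ℝ) := Real.rpow_nonneg (Nat.cast_nonneg _) _
  calc ‖hl t‖ * ‖JN N (hl t)‖ ≤ (1 / 2 + |t|) * ((N : ℝ) ^ (-(1 / 2) : ℝ) / (1 / 2)) :=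
        mul_le_mul h4 h3 (norm_nonneg _) (by positivity)
    _ ≤ _ := by
        have := abs_nonneg t
        nlinarith

end

end Pool.Agent.HL9
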